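import Pool.Agent.H947R3.Basic

/-!
# Extremal solutions with advection: statements of the parts

`E n` (Euclidean space), `bv i` (basis vectors), `pd u i x` (partial derivatives) and the
integration by parts `ibp` are those of `Pool.Agent.H947R3.Basic`.
-/

set_option autoImplicit false

open MeasureTheory Set Filter Topology Laplacian InnerProductSpace
open scoped ContDiff

namespace Pool.Agent.Y520.AR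

open Pool.Agent.H947R3

/-- nonlinearities of type (R) -/
structure TypeR (f : ℝ → ℝ) : Prop where
  smooth : ContDiff ℝ ∞ f
  increasing : StrictMono f
  convex : ConvexOn ℝ univ f
  at_zero : f 0 = 1
  superlinear : Tendsto (fun t => f t / t) atTop atTop

/-- the assumptions on the advection -/
structure Drift {n : ℕ} (Ω : Set (E n)) (c : E n → E n) (B : ℝ) : Prop where
  nonneg : 0 ≤ B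
  c1 : ContDiffOn ℝ 1 c Ω
  bd : ∀ x ∈ Ω, ‖c x‖ ≤ B
  bd' : ∀ x ∈ Ω, ‖fderiv ℝ c x‖ ≤ B

/-- the divergence -/
noncomputable def dv {n : ℕ} (c : E n → E n) (x : E n) : ℝ := ∑ i, fderiv ℝ c x (bv i) i

/-- `Ω = {d > 0}` with a function `d` of class `C²` with nonvanishing gradient on the boundary -/
structure Dom {n : ℕ} (Ω : Set (E n)) (d : E n → ℝ) : Prop where
  c2 : ContDiff ℝ 2 d
  mem : ∀ x, x ∈ Ω ↔ 0 < d x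
  bounded : Bornology.IsBounded Ω
  grad : ∀ x ∈ frontier Ω, fderiv ℝ d x ≠ 0

/-- functions which are `C²` in `Ω`, continuous on the closure, nonnegative, zero on the
boundary -/
structure Ad {n : ℕ} (Ω : Set (E n)) (u : E n → ℝ) : Prop where
  c2 : ContDiffOn ℝ 2 u Ω
  cont : ContinuousOn u (closure Ω)
  nonneg : ∀ x ∈ Ω, 0 ≤ u x
  bdry : ∀ x ∈ frontier Ω, u x = 0

/-- classical solutions -/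
structure Sol {n : ℕ} (Ω : Set (E n)) (c : E n → E n) (f : ℝ → ℝ) (l : ℝ) (u : E n → ℝ) :
    Prop extends Ad Ω u where
  eq : ∀ x ∈ Ω, -(Δ u x) + fderiv ℝ u x (c x) = l * f (u x)

/-- the primitive `∫₀ᵗ y` -/
noncomputable def PP (y : ℝ → ℝ) (t : ℝ) : ℝ := ∫ s in (0 : ℝ)..t, y s

/-- the measure of the superlevel set -/
noncomputable def LV {n : ℕ} (Ω : Set (E n)) (u : E n → ℝ) (t : ℝ) : ℝ :=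
  volume.real {x | x ∈ Ω ∧ t < u x}

/-! ### Part A: the energy inequality -/

/-- **DIVG** -/
def S_DIVG : Prop := ∀ (n : ℕ) (Ω : Set (E n)) (c : E n → E n) (ψ : E n → ℝ), IsOpen Ω →
  ContDiffOn ℝ 1 c Ω → ContDiff ℝ 1 ψ → HasCompactSupport ψ → tsupport ψ ⊆ Ω →
  Integrable (fun x => fderiv ℝ ψ x (c x)) ∧ Integrable (fun x => dv c x * ψ x) ∧
  ∫ x, fderiv ℝ ψ x (c x) = - ∫ x, dv c x * ψ x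

/-- **STAB** -/
def S_STAB : Prop := ∀ (n : ℕ) (Ω : Set (E n)) (c : E n → E n) (B : ℝ) (z V φ : E n → ℝ),
  IsOpen Ω → Drift Ω c B → ContDiffOn ℝ 2 z Ω → (∀ x ∈ Ω, 0 < z x) → ContinuousOn V Ω →
  (∀ x ∈ Ω, V x * z x ≤ - Δ z x + fderiv ℝ z x (c x)) → ContDiff ℝ 1 φ → HasCompactSupport φ →
  tsupport φ ⊆ Ω →
  ∫ x, V x * φ x ^ 2 ≤ (∫ x, ∑ i, (pd φ i x) ^ 2) + (B ^ 2 / 4 + n * B / 2) * ∫ x, φ x ^ 2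

/-- **MAIN0**: the case when `y` vanishes near `0` -/
def S_MAIN0 : Prop := ∀ (n : ℕ) (Ω : Set (E n)) (c : E n → E n) (B : ℝ) (f : ℝ → ℝ) (l l' : ℝ)
  (u u' : E n → ℝ), IsOpen Ω → Bornology.IsBounded Ω → Drift Ω c B → TypeR f → 0 < l → l < l' →
  Sol Ω c f l u → Sol Ω c f l' u' → (∀ x ∈ Ω, u x ≤ u' x) → ∀ y : ℝ → ℝ, Continuous y →
  ∀ ε : ℝ, 0 < ε → (∀ s, s ≤ ε → y s = 0) →
  l * ∫ x in Ω, (deriv f (u x) * PP y (u x) ^ 2 - f (u x) * PP (fun s => y s ^ 2) (u x)) ≤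
    (n * B + B ^ 2) * ∫ x in Ω, (PP y (u x) ^ 2 + PP (PP (fun s => y s ^ 2)) (u x))

/-- **MAIN** -/
def S_MAIN : Prop := ∀ (n : ℕ) (Ω : Set (E n)) (c : E n → E n) (B : ℝ) (f : ℝ → ℝ) (l l' : ℝ)
  (u u' : E n → ℝ), IsOpen Ω → Bornology.IsBounded Ω → Drift Ω c B → TypeR f → 0 < l → l < l' →
  Sol Ω c f l u → Sol Ω c f l' u' → (∀ x ∈ Ω, u x ≤ u' x) → ∀ y : ℝ → ℝ, Continuous y →
  l * ∫ x in Ω, (deriv f (u x) * PP y (u x) ^ 2 - f (u x) * PP (fun s => y s ^ 2) (u x)) ≤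
    (n * B + B ^ 2) * ∫ x in Ω, (PP y (u x) ^ 2 + PP (PP (fun s => y s ^ 2)) (u x))

/-! ### Part B: the measure of the superlevel sets -/

/-- **SOB** -/
def S_SOB : Prop := ∀ n : ℕ, 2 ≤ n → ∃ C : ℝ, 0 < C ∧ ∀ T : E n → ℝ, ContDiff ℝ 1 T →
  HasCompactSupport T →
  (∫ x, |T x|) ^ n ≤ C * (∫ x, ‖fderiv ℝ T x‖) ^ n * volume.real {x | T x ≠ 0}

/-- **ENE** -/
def S_ENE : Prop := ∀ n : ℕ, 2 ≤ n → ∃ C : ℝ, 0 < C ∧ ∀ (Ω : Set (E n)) (c : E n → E n)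
  (B K M : ℝ) (u : E n → ℝ), IsOpen Ω → Bornology.IsBounded Ω → Drift Ω c B → 0 < K → Ad Ω u →
  (∀ x ∈ Ω, u x ≤ M) → (∀ x ∈ Ω, -(Δ u x) + fderiv ℝ u x (c x) ≤ K) → ∀ k : ℝ, 0 < k →
  (∫ x in Ω, max (u x - k) 0) ^ n ≤ C * (K + n * B * M) ^ n * LV Ω u k ^ (n + 2)

/-- **STAMP** -/
def S_STAMP : Prop := ∀ (n : ℕ) (C : ℝ), 1 ≤ n → 0 < C → ∃ κ : ℝ, 0 < κ ∧
  ∀ (a : ℝ → ℝ) (K : ℝ), 0 < K → (∀ t, 0 ≤ a t) → Antitone a →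
  (∀ k k', 0 < k → k < k' → ((k' - k) * a k') ^ n ≤ C * K ^ n * a k ^ (n + 2)) →
  ∀ t s, 0 < t → t < s → 0 < a s → κ * (s - t) ^ n ≤ K ^ n * a t ^ 2

/-- **BUMP** -/
def S_BUMP : Prop := ∀ n : ℕ, 2 ≤ n → ∃ κ : ℝ, 0 < κ ∧ ∀ (Ω : Set (E n)) (c : E n → E n)
  (B K M : ℝ) (u : E n → ℝ), IsOpen Ω → Bornology.IsBounded Ω → Drift Ω c B → 0 < K → Ad Ω u →
  (∀ x ∈ Ω, u x ≤ M) → (∀ x ∈ Ω, -(Δ u x) + fderiv ℝ u x (c x) ≤ K) → ∀ t : ℝ, 0 < t →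
  ∀ x ∈ Ω, t < u x → κ * (u x - t) ^ n ≤ (K + n * B * M) ^ n * LV Ω u t ^ 2

/-! ### Part C: the boundary -/

/-- **BAR** -/
def S_BAR : Prop := ∀ (n : ℕ) (Ω : Set (E n)) (d : E n → ℝ) (c : E n → E n) (B : ℝ),
  Dom Ω d → Drift Ω c B → ∃ s η : ℝ, 0 < s ∧ 0 < η ∧ ∀ (u : E n → ℝ) (M K : ℝ), Ad Ω u →
  0 < M → 0 < K → M ≤ s * K → (∀ x ∈ Ω, u x ≤ M) →
  (∀ x ∈ Ω, -(Δ u x) + fderiv ℝ u x (c x) ≤ K) →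
  ∀ x ∈ Ω, d x ^ 2 * K ≤ η * M → u x ≤ M / 4

/-- **WL** -/
def S_WL : Prop := ∀ (n : ℕ) (Ω : Set (E n)) (d : E n → ℝ) (c : E n → E n) (B : ℝ)
  (f : ℝ → ℝ) (l₀ : ℝ), Dom Ω d → Drift Ω c B → TypeR f → 0 < l₀ →
  ∃ C : ℝ, ∀ (l : ℝ) (u : E n → ℝ), l₀ ≤ l → Sol Ω c f l u →
    ∫ x in Ω, f (u x) * d x ≤ C

/-! ### Part D: the branch -/

/-- **CMPR** -/
def S_CMPR : Prop := ∀ (n : ℕ) (Ω : Set (E n)) (c : E n → E n) (B : ℝ) (f : ℝ → ℝ)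
  (l l' : ℝ) (u u' w : E n → ℝ), IsOpen Ω → Bornology.IsBounded Ω → Drift Ω c B → TypeR f →
  0 < l → l < l' → Sol Ω c f l u → Sol Ω c f l' u' → (∀ x ∈ Ω, u x ≤ u' x) →
  ContDiffOn ℝ 2 w Ω → ContinuousOn w (closure Ω) → (∀ x ∈ frontier Ω, 0 ≤ w x) →
  (∀ x ∈ Ω, l * f (w x) ≤ -(Δ w x) + fderiv ℝ w x (c x)) → ∀ x ∈ closure Ω, u x ≤ w x

/-- **IVT** -/
def S_IVT : Prop := ∀ (n : ℕ) (Ω : Set (E n)) (c : E n → E n) (B : ℝ) (f : ℝ → ℝ) (ls : ℝ)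
  (u : ℝ → E n → ℝ), IsOpen Ω → Bornology.IsBounded Ω → Drift Ω c B → TypeR f →
  (∀ l, 0 < l → l < ls → Sol Ω c f l (u l)) →
  (∀ l l', 0 < l → l < l' → l' < ls → ∀ x ∈ Ω, u l x ≤ u l' x) →
  ∀ l₀ l₁ M, 0 < l₀ → l₀ < l₁ → l₁ < ls → 0 < M → (∀ x ∈ Ω, u l₀ x ≤ M) →
  (∃ x ∈ Ω, M < u l₁ x) →
  ∃ l, l₀ ≤ l ∧ l < ls ∧ (∀ x ∈ Ω, u l x ≤ M) ∧ ∃ x ∈ Ω, u l x = M

/-! ### Part E: real analysis -/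

/-- **REAL**, `α = j / 4` -/
def S_REAL : Prop := ∀ (f : ℝ → ℝ) (j : ℕ) (C : ℝ), TypeR f → j ≤ 3 → 0 ≤ C →
  (∃ c t₀ : ℝ, 0 < c ∧ ∀ t, t₀ ≤ t → c * t ^ 4 ≤ deriv f t ^ (4 - j)) →
  ∃ C' : ℝ, 0 ≤ C' ∧ ∀ t, 0 ≤ t →
    deriv f t ^ (j / 4 : ℝ) * (f t - 1) - C' ≤
      deriv f t * PP (fun s => deriv f s ^ (j / 4 : ℝ)) t ^ 2 -
        f t * PP (fun s => (deriv f s ^ (j / 4 : ℝ)) ^ 2) t -
        C * (PP (fun s => deriv f s ^ (j / 4 : ℝ)) t ^ 2 +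
          PP (PP (fun s => (deriv f s ^ (j / 4 : ℝ)) ^ 2)) t)

/-- **GR0** -/
def S_GR0 : Prop := ∀ (f : ℝ → ℝ) (n : ℕ), TypeR f → (n = 2 ∨ n = 3) →
  (∃ c M₀ : ℝ, 0 < c ∧ ∀ M, M₀ ≤ M → c * f (M / 2) ^ 2 * M ^ (n + 1) ≤ f M ^ (n + 1)) →
  ∃ c t₀ : ℝ, 0 < c ∧ ∀ t, t₀ ≤ t → c * t ^ 2 ≤ f t

/-- **GR1** -/
def S_GR1 : Prop := ∀ (f : ℝ → ℝ) (n : ℕ), TypeR f → (n = 2 ∨ n = 3) →
  (∃ c M₀ : ℝ, 0 < c ∧ ∀ M, M₀ ≤ M → c * M ^ (2 * n) * f (M / 2) ^ 4 ≤ f M ^ (2 * n)) →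
  ∃ c t₀ : ℝ, 0 < c ∧ ∀ t, t₀ ≤ t → c * t ^ 3 ≤ f t

/-- **GR2** -/
def S_GR2 : Prop := ∀ (f : ℝ → ℝ) (n : ℕ), TypeR f → (n = 2 ∨ n = 3) →
  (∃ c t₀ : ℝ, 0 < c ∧ ∀ t, t₀ ≤ t → c * t ^ 3 ≤ f t) →
  (∃ c M₀ : ℝ, 0 < c ∧ ∀ M, M₀ ≤ M →
      c * M ^ (2 * n) * f (M / 2) ^ 6 ≤ f M ^ (2 * n) * M ^ 2) →
  ∃ c t₀ : ℝ, 0 < c ∧ ∀ t, t₀ ≤ t → c * t ^ 5 ≤ f t

/-- **GR3** -/
def S_GR3 : Prop := ∀ (f : ℝ → ℝ) (n : ℕ), TypeR f → (n = 2 ∨ n = 3) →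
  (∃ c t₀ : ℝ, 0 < c ∧ ∀ t, t₀ ≤ t → c * t ^ 5 ≤ f t) →
  ¬ ∃ c M₀ : ℝ, 0 < c ∧ ∀ t M, M₀ ≤ t → t < M → M ≤ t + 1 →
    c * (M - t) ^ (2 * n) * f t ^ 7 ≤ f M ^ (2 * n) * t ^ 3

/-- **STEP** -/
def S_STEP : Prop := ∀ (n : ℕ) (Ω : Set (E n)) (c : E n → E n) (B : ℝ) (f : ℝ → ℝ) (l₀ : ℝ)
  (j : ℕ), IsOpen Ω → Bornology.IsBounded Ω → Drift Ω c B → TypeR f → 0 < l₀ → j ≤ 3 →
  (∃ c t₀ : ℝ, 0 < c ∧ ∀ t, t₀ ≤ t → c * t ^ 4 ≤ deriv f t ^ (4 - j)) →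
  ∃ C : ℝ, 0 ≤ C ∧ ∀ (l l' : ℝ) (u u' : E n → ℝ), l₀ ≤ l → l < l' → Sol Ω c f l u →
    Sol Ω c f l' u' → (∀ x ∈ Ω, u x ≤ u' x) → ∀ t, 0 < t →
    LV Ω u t ^ 4 * (f t - 1) ^ (4 + j) ≤ C * t ^ j

/-! ### Part F: smooth domains -/

/-- smooth bounded domains (connectedness is not needed): near each boundary point `Ω` is
`{ρ < 0}` with a smooth function `ρ` whose gradient does not vanish on `{ρ = 0} = ∂Ω` -/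
def LocalBoundary {n : ℕ} (Ω : Set (E n)) : Prop :=
  ∀ x ∈ frontier Ω, ∃ (W : Set (E n)) (ρ : E n → ℝ), IsOpen W ∧ x ∈ W ∧ ContDiffOn ℝ ∞ ρ W ∧
    (∀ y ∈ W, ρ y = 0 → fderiv ℝ ρ y ≠ 0) ∧ (∀ y ∈ W, y ∈ Ω ↔ ρ y < 0) ∧
    (∀ y ∈ W, y ∈ frontier Ω ↔ ρ y = 0)

/-- **DOM** -/
def S_DOM : Prop := ∀ (n : ℕ) (Ω : Set (E n)), IsOpen Ω → Bornology.IsBounded Ω →
  LocalBoundary Ω → ∃ d : E n → ℝ, Dom Ω d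

end Pool.Agent.Y520.AR
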