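import Pool.Agent.Y520.AR.Step

/-!
# The lower bound for the measure of the superlevel sets
-/

set_option autoImplicit false

open MeasureTheory Set Filter Topology Laplacian InnerProductSpace
open scoped ContDiff

namespace Pool.Agent.Y520.AR

open Pool.Agent.H947R3

theorem LV_anti {n : ℕ} {Ω : Set (E n)} (hb : Bornology.IsBounded Ω) (u : E n → ℝ) :
    Antitone (LV Ω u) := by
  intro s t hst
  refine measureReal_mono (fun x hx => ⟨hx.1, hst.trans_lt hx.2⟩) ?_
  have hsub : {x | x ∈ Ω ∧ s < u x} ⊆ Ω := fun x hx => hx.1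
  exact ((measure_mono hsub).trans_lt hb.measure_lt_top).ne

theorem t_BUMP (hE : S_ENE) (hT : S_STAMP) : S_BUMP := by
  intro n hn
  obtain ⟨C, hC, hene⟩ := hE n hn
  obtain ⟨κ, hκ, hst⟩ := hT n C (by omega) hC
  refine ⟨κ, hκ, fun Ω c B K M u hΩ hb hD hK hu hM hle t ht x hx hxt => ?_⟩
  have hB := hD.nonneg
  have hM0 : 0 < M := by linarith [hM x hx]
  have hK' : 0 < K + n * B * M := by positivity
  have hrec : ∀ k k', 0 < k → k < k' →
      ((k' - k) * LV Ω u k') ^ n ≤ C * (K + n * B * M) ^ n * LV Ω u k ^ (n + 2) := by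
    intro k k' hk hkk
    refine le_trans (pow_le_pow_left₀ ?_ ?_ n) (hene Ω c B K M u hΩ hb hD hK hu hM hle k hk)
    · exact mul_nonneg (by linarith) (LV_nonneg _)
    · have i1 : IntegrableOn (fun x => max (u x - k) 0) Ω :=
        integrable_comp' (F := fun s => max (s - k) 0) hb hu (by fun_prop)
      have hsub : {x | x ∈ Ω ∧ k' < u x} ⊆ Ω := fun x hx => hx.1
      have hfin : volume {x | x ∈ Ω ∧ k' < u x} ≠ ⊤ :=
        ((measure_mono hsub).trans_lt hb.measure_lt_top).ne
      calc (k' - k) * LV Ω u k' = ∫ _ in {x | x ∈ Ω ∧ k' < u x}, (k' - k) := by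
            rw [setIntegral_const, smul_eq_mul, mul_comm]; rfl
        _ ≤ ∫ x in {x | x ∈ Ω ∧ k' < u x}, max (u x - k) 0 := by
            refine setIntegral_mono_on (integrableOn_const hfin) (i1.mono_set hsub)
              (measurableSet_LV hΩ hu _) fun x hx => ?_
            exact le_trans (by linarith [hx.2]) (le_max_left _ _)
        _ ≤ ∫ x in Ω, max (u x - k) 0 := by
            refine setIntegral_mono_set i1 (Eventually.of_forall fun x => ?_)
              (Eventually.of_forall hsub)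
            exact le_max_right _ _
  have hs : ∀ s, t < s → s < u x → κ * (s - t) ^ n ≤ (K + n * B * M) ^ n * LV Ω u t ^ 2 := by
    intro s hts hsx
    refine hst (LV Ω u) (K + n * B * M) hK' (fun _ => LV_nonneg _) (LV_anti hb u) hrec t s ht hts ?_
    have hopen : IsOpen {x | x ∈ Ω ∧ s < u x} :=
      hu.c2.continuousOn.isOpen_inter_preimage hΩ (isOpen_Ioi (a := s))
    have hpos := hopen.measure_pos volume ⟨x, hx, hsx⟩
    have hsub : {x | x ∈ Ω ∧ s < u x} ⊆ Ω := fun x hx => hx.1
    exact ENNReal.toReal_pos hpos.ne' ((measure_mono hsub).trans_lt hb.measure_lt_top).ne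
  have hlim : Tendsto (fun s : ℝ => κ * (s - t) ^ n) (𝓝[<] (u x)) (𝓝 (κ * (u x - t) ^ n)) := by
    have h1 : Continuous fun s : ℝ => κ * (s - t) ^ n := by fun_prop
    exact (h1.tendsto _).mono_left nhdsWithin_le_nhds
  refine le_of_tendsto hlim ?_
  filter_upwards [Ioo_mem_nhdsLT hxt] with s hs'
  exact hs s hs'.1 hs'.2

end Pool.Agent.Y520.AR
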