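import Pool.Agent.Y520.AR.Cmpr

/-!
# The supremum of the branch takes all values
-/

set_option autoImplicit false

open MeasureTheory Set Filter Topology Laplacian InnerProductSpace
open scoped ContDiff

namespace Pool.Agent.Y520.AR

open Pool.Agent.H947R3

theorem t_IVT (hC : S_CMPR) : S_IVT := by
  intro n Ω c B f ls u hΩ hb hD hf hsol hmono l₀ l₁ M hl₀ h01 h1s hM hM0 hex
  obtain ⟨x₁, hx₁, hx₁M⟩ := hex
  have hcomp : IsCompact (closure Ω) := hb.isCompact_closure
  -- pointwise convexity
  have hconv : ∀ a ∈ Ioo 0 ls, ∀ b ∈ Ioo 0 ls, a < b → ∀ s t : ℝ, 0 < s → 0 < t → s + t = 1 →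
      ∀ x ∈ closure Ω, u (s * a + t * b) x ≤ s * u a x + t * u b x := by
    intro a ha b hb' hab s t hs ht hst
    set l := s * a + t * b with hl
    have p1 := mul_pos ht (sub_pos.2 hab)
    have p2 := mul_pos hs (sub_pos.2 hab)
    have hal : a < l := by
      have : l = a + t * (b - a) := by rw [hl, show s = 1 - t by linarith]; ring
      linarith
    have hlb : l < b := by
      have : l = b - s * (b - a) := by rw [hl, show t = 1 - s by linarith]; ring
      linarith
    have hl0 : 0 < l := ha.1.trans hal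
    have hls : l < ls := hlb.trans hb'.2
    have Sa := hsol a ha.1 ha.2
    have Sb := hsol b hb'.1 hb'.2
    refine hC n Ω c B f l ((l + ls) / 2) (u l) (u ((l + ls) / 2))
      (fun x => s * u a x + t * u b x) hΩ hb hD hf hl0 (by linarith) (hsol l hl0 hls)
      (hsol _ (by linarith) (by linarith)) (hmono _ _ hl0 (by linarith) (by linarith))
      ((contDiffOn_const.mul Sa.c2).add (contDiffOn_const.mul Sb.c2))
      ((continuousOn_const.mul Sa.cont).add (continuousOn_const.mul Sb.cont)) ?_ ?_
    · intro x hx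
      rw [Sa.bdry x hx, Sb.bdry x hx]; simp
    · intro x hx
      have ca : ContDiffAt ℝ 2 (u a) x := Sa.c2.contDiffAt (hΩ.mem_nhds hx)
      have cb : ContDiffAt ℝ 2 (u b) x := Sb.c2.contDiffAt (hΩ.mem_nhds hx)
      have e1 : Δ (fun x => s * u a x + t * u b x) x = s * Δ (u a) x + t * Δ (u b) x := by
        have h1 := lap_comb ca cb (contDiffAt_const (c := (0 : ℝ))) s t 0
        have h2 : Δ (fun _ : E n => (0 : ℝ)) x = 0 := by
          rw [lap_eq contDiffAt_const]
          refine Finset.sum_eq_zero fun i _ => ?_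
          have : pd (fun _ : E n => (0 : ℝ)) i = fun _ => 0 := by
            funext z; simp [pd]
          rw [this]; simp [pd]
        rw [h2] at h1
        simpa using h1
      have e2 : fderiv ℝ (fun x => s * u a x + t * u b x) x (c x) =
          s * fderiv ℝ (u a) x (c x) + t * fderiv ℝ (u b) x (c x) := by
        have h1 : HasFDerivAt (fun x => s * u a x + t * u b x)
            (s • fderiv ℝ (u a) x + t • fderiv ℝ (u b) x) x :=
          ((ca.differentiableAt (by norm_num)).hasFDerivAt.const_mul s).add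
            ((cb.differentiableAt (by norm_num)).hasFDerivAt.const_mul t)
        rw [h1.fderiv]
        simp
      rw [e1, e2]
      have e3 := Sa.eq x hx
      have e4 := Sb.eq x hx
      have e5 : -(s * Δ (u a) x + t * Δ (u b) x) +
          (s * fderiv ℝ (u a) x (c x) + t * fderiv ℝ (u b) x (c x)) =
          s * (a * f (u a x)) + t * (b * f (u b x)) := by rw [← e3, ← e4]; ring
      rw [e5]
      have h3 : f (s * u a x + t * u b x) ≤ s * f (u a x) + t * f (u b x) := by
        have := hf.convex.2 (mem_univ (u a x)) (mem_univ (u b x)) hs.le ht.le hst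
        simpa using this
      have h4 : f (u a x) ≤ f (u b x) :=
        hf.increasing.monotone (hmono a b ha.1 hab hb'.2 x hx)
      have h5 : l * (s * f (u a x) + t * f (u b x)) ≤ s * (a * f (u a x)) + t * (b * f (u b x)) := by
        have ht' : t = 1 - s := by linarith
        have h6 : s * (a * f (u a x)) + t * (b * f (u b x)) -
            l * (s * f (u a x) + t * f (u b x)) = s * t * ((b - a) * (f (u b x) - f (u a x))) := by
          rw [hl, ht']; ring
        have h7 : 0 ≤ s * t * ((b - a) * (f (u b x) - f (u a x))) := by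
          have h8 : 0 ≤ b - a := by linarith
          have h9 : 0 ≤ f (u b x) - f (u a x) := by linarith
          positivity
        linarith
      exact (mul_le_mul_of_nonneg_left h3 hl0.le).trans h5
  -- the supremum
  set S : ℝ → ℝ := fun l => sSup (u l '' closure Ω) with hS
  have hne : (closure Ω).Nonempty := ⟨x₁, subset_closure hx₁⟩
  have hSle : ∀ l ∈ Ioo 0 ls, ∀ x ∈ closure Ω, u l x ≤ S l := fun l hl x hx =>
    le_csSup (hcomp.bddAbove_image (hsol l hl.1 hl.2).cont) (mem_image_of_mem _ hx)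
  have hSmax : ∀ l ∈ Ioo 0 ls, ∃ x ∈ closure Ω, u l x = S l := by
    intro l hl
    obtain ⟨x, hx, h⟩ := hcomp.exists_sSup_image_eq hne (hsol l hl.1 hl.2).cont
    exact ⟨x, hx, h.symm⟩
  have hSconv : ConvexOn ℝ (Ioo 0 ls) S := by
    refine LinearOrder.convexOn_of_lt (convex_Ioo 0 ls) ?_
    intro a ha b hb' hab s t hs ht hst
    simp only [smul_eq_mul]
    have hmem : s * a + t * b ∈ Ioo 0 ls := by
      have := (convex_Ioo 0 ls) ha hb' hs.le ht.le hst
      simpa using this
    obtain ⟨x, hx, h⟩ := hSmax _ hmem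
    rw [← h]
    refine (hconv a ha b hb' hab s t hs ht hst x hx).trans ?_
    exact add_le_add (mul_le_mul_of_nonneg_left (hSle a ha x hx) hs.le)
      (mul_le_mul_of_nonneg_left (hSle b hb' x hx) ht.le)
  have hScont : ContinuousOn S (Ioo 0 ls) := hSconv.continuousOn isOpen_Ioo
  have hsub : Icc l₀ l₁ ⊆ Ioo 0 ls := fun l hl => ⟨by linarith [hl.1], by linarith [hl.2]⟩
  have hSl₀ : S l₀ ≤ M := by
    obtain ⟨x, hx, h⟩ := hSmax l₀ ⟨hl₀, by linarith⟩
    rw [← h]
    by_cases hxΩ : x ∈ Ω
    · exact hM0 x hxΩ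
    · have hxf : x ∈ frontier Ω := by rw [frontier, hΩ.interior_eq]; exact ⟨hx, hxΩ⟩
      rw [(hsol l₀ hl₀ (by linarith)).bdry x hxf]; exact hM.le
  have hSl₁ : M ≤ S l₁ :=
    hx₁M.le.trans (hSle l₁ ⟨by linarith, h1s⟩ x₁ (subset_closure hx₁))
  obtain ⟨l, hl, hlM⟩ := intermediate_value_Icc h01.le (hScont.mono hsub) ⟨hSl₀, hSl₁⟩
  have hl' := hsub hl
  obtain ⟨x, hx, h⟩ := hSmax l hl'
  refine ⟨l, hl.1, hl'.2, fun z hz => (hSle l hl' z (subset_closure hz)).trans hlM.le, x, ?_,
    h.trans hlM⟩
  by_contra hxΩ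
  have hxf : x ∈ frontier Ω := by rw [frontier, hΩ.interior_eq]; exact ⟨hx, hxΩ⟩
  rw [(hsol l hl'.1 hl'.2).bdry x hxf, hlM] at h
  linarith

end Pool.Agent.Y520.AR
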