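import Pool.Agent.Y520.AR.Stm

/-!
# The Sobolev inequality
-/

set_option autoImplicit false

open MeasureTheory Set Filter Topology
open scoped ENNReal NNReal ContDiff

namespace Pool.Agent.Y520.AR

open Pool.Agent.H947R3

theorem t_SOB : S_SOB := by
  intro n hn
  have hn0 : (0 : ℝ) < n := by positivity
  have hn1 : (0 : ℝ) < (n : ℝ) - 1 := by
    have : (2 : ℝ) ≤ n := by exact_mod_cast hn
    linarith
  set p : ℝ := n / (n - 1) with hp
  have hp0 : 0 < p := by positivity
  have hconj : Real.HolderConjugate (n : ℝ) p := by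
    rw [Real.holderConjugate_iff]
    refine ⟨by linarith, ?_⟩
    rw [hp]; field_simp; ring
  set K : ℝ≥0 := lintegralPowLePowLIntegralFDerivConst (volume : Measure (E n)) p with hK
  have hnp : (n : ℝ) / p = n - 1 := by rw [hp]; field_simp
  refine ⟨((K : ℝ) ^ ((n : ℝ) / p)) + 1, by positivity, ?_⟩
  intro T hT hc
  have hfin : Real.HolderConjugate ((Module.finrank ℝ (E n) : ℕ) : ℝ) p := by
    rw [finrank_euclideanSpace, Fintype.card_fin]; exact hconj
  have key := lintegral_pow_le_pow_lintegral_fderiv (volume : Measure (E n)) hT hc hfin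
  rw [← hK] at key
  set U : Set (E n) := {x | T x ≠ 0} with hU
  have hUm : MeasurableSet U := by
    have : IsOpen U := isOpen_ne_fun hT.continuous continuous_const
    exact this.measurableSet
  have hUfin : volume U ≠ ⊤ := by
    have h1 : U ⊆ tsupport T := subset_tsupport T
    exact ((measure_mono h1).trans_lt hc.isCompact.measure_lt_top).ne
  -- Hoelder
  have hol : ∫⁻ x, ‖T x‖ₑ ≤ (∫⁻ x, ‖T x‖ₑ ^ p) ^ (1 / p) * volume U ^ (1 / (n : ℝ)) := by
    set F : E n → ℝ≥0∞ := fun x => ‖T x‖ₑ with hF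
    set g : E n → ℝ≥0∞ := U.indicator 1 with hg
    have h1 := ENNReal.lintegral_mul_le_Lp_mul_Lq (volume : Measure (E n)) hconj.symm
      (f := F) (g := g)
      (hT.continuous.enorm.measurable.aemeasurable) ((measurable_one.indicator hUm).aemeasurable)
    have e1 : ∫⁻ x, (F * g) x = ∫⁻ x, ‖T x‖ₑ := by
      refine lintegral_congr fun x => ?_
      by_cases hx : x ∈ U
      · simp [hF, hg, hx]
      · have : T x = 0 := by simpa [hU] using hx
        simp [hF, this]
    have e2 : ∫⁻ x, g x ^ (n : ℝ) = volume U := by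
      have : ∀ x, g x ^ (n : ℝ) = U.indicator 1 x := by
        intro x
        by_cases hx : x ∈ U
        · simp [hg, hx]
        · simp only [hg, indicator_of_notMem hx]
          exact ENNReal.zero_rpow_of_pos hn0
      simp_rw [this]
      exact lintegral_indicator_one hUm
    rw [e1, e2] at h1
    exact h1
  have h2 : (∫⁻ x, ‖T x‖ₑ) ^ (n : ℝ) ≤
      (K : ℝ≥0∞) ^ ((n : ℝ) / p) * (∫⁻ x, ‖fderiv ℝ T x‖ₑ) ^ (n : ℝ) * volume U := by
    calc (∫⁻ x, ‖T x‖ₑ) ^ (n : ℝ) ≤
          ((∫⁻ x, ‖T x‖ₑ ^ p) ^ (1 / p) * volume U ^ (1 / (n : ℝ))) ^ (n : ℝ) :=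
          ENNReal.rpow_le_rpow hol hn0.le
      _ = (∫⁻ x, ‖T x‖ₑ ^ p) ^ ((n : ℝ) / p) * volume U := by
          rw [ENNReal.mul_rpow_of_nonneg _ _ hn0.le, ← ENNReal.rpow_mul, ← ENNReal.rpow_mul]
          congr 1
          · congr 1; field_simp
          · rw [one_div, inv_mul_cancel₀ hn0.ne', ENNReal.rpow_one]
      _ ≤ ((K : ℝ≥0∞) * (∫⁻ x, ‖fderiv ℝ T x‖ₑ) ^ p) ^ ((n : ℝ) / p) * volume U := by
          gcongr
      _ = _ := by
          rw [ENNReal.mul_rpow_of_nonneg _ _ (by positivity), ← ENNReal.rpow_mul]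
          congr 3
          field_simp
  have i1 : Integrable (fun x => |T x|) :=
    (hT.continuous.abs).integrable_of_hasCompactSupport (hc.comp_left (g := fun y => |y|) abs_zero)
  have i2 : Integrable (fun x => ‖fderiv ℝ T x‖) :=
    ((hT.continuous_fderiv (by norm_num)).norm).integrable_of_hasCompactSupport
      ((hc.fderiv (𝕜 := ℝ)).norm)
  have a1 : ∫⁻ x, ‖T x‖ₑ = ENNReal.ofReal (∫ x, |T x|) := by
    rw [ofReal_integral_eq_lintegral_ofReal i1 (Eventually.of_forall fun x => abs_nonneg _)]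
    refine lintegral_congr fun x => ?_
    rw [← ofReal_norm, Real.norm_eq_abs]
  have a2 : ∫⁻ x, ‖fderiv ℝ T x‖ₑ = ENNReal.ofReal (∫ x, ‖fderiv ℝ T x‖) := by
    rw [ofReal_integral_eq_lintegral_ofReal i2 (Eventually.of_forall fun x => norm_nonneg _)]
    refine lintegral_congr fun x => ?_
    rw [← ofReal_norm]
  have b1 : 0 ≤ ∫ x, |T x| := integral_nonneg fun x => abs_nonneg _
  have b2 : 0 ≤ ∫ x, ‖fderiv ℝ T x‖ := integral_nonneg fun x => norm_nonneg _
  have a3 : volume U = ENNReal.ofReal (volume.real U) := (ofReal_measureReal hUfin).symm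
  have a4 : (K : ℝ≥0∞) = ENNReal.ofReal (K : ℝ) := (ENNReal.ofReal_coe_nnreal).symm
  rw [a1, a2, a3, a4, ENNReal.ofReal_rpow_of_nonneg b1 hn0.le, ENNReal.ofReal_rpow_of_nonneg b2 hn0.le,
    ENNReal.ofReal_rpow_of_nonneg K.coe_nonneg (by positivity), ← ENNReal.ofReal_mul (by positivity),
    ← ENNReal.ofReal_mul (by positivity), ENNReal.ofReal_le_ofReal_iff (by positivity),
    Real.rpow_natCast, Real.rpow_natCast] at h2
  refine h2.trans ?_
  have : 0 ≤ (∫ x, ‖fderiv ℝ T x‖) ^ n * volume.real U := by positivity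
  nlinarith

end Pool.Agent.Y520.AR
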