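import Pool.Agent.Y520.AR.Stm

/-!
# Stampacchia's lemma
-/

set_option autoImplicit false

open Filter Topology Set

namespace Pool.Agent.Y520.AR

theorem t_STAMP : S_STAMP := by
  intro n C hn hC
  refine ⟨1 / (C * 2 ^ (n * (n + 1))), by positivity, ?_⟩
  intro a K hK ha0 hanti hrec t s ht hts has
  by_contra hcon
  rw [not_le] at hcon
  set D := s - t with hD
  have hDpos : 0 < D := by rw [hD]; linarith
  have hat : 0 < a t := lt_of_lt_of_le has (hanti hts.le)
  have hA : C * 2 ^ (n * (n + 1)) * (K ^ n * a t ^ 2) < D ^ n := by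
    rw [one_div, ← div_eq_inv_mul, lt_div_iff₀ (by positivity)] at hcon
    linarith
  set k : ℕ → ℝ := fun j => t + D * (1 - (1 / 2) ^ j) with hk
  have hkj : ∀ j, k (j + 1) - k j = D * ((1 / 2) ^ j / 2) := by
    intro j; simp only [hk, pow_succ]; ring
  have hxpos : ∀ j : ℕ, (0 : ℝ) < (1 / 2) ^ j := fun j => by positivity
  have hx1 : ∀ j : ℕ, ((1 / 2 : ℝ)) ^ j ≤ 1 := fun j => pow_le_one₀ (by norm_num) (by norm_num)
  have hkt : ∀ j, t ≤ k j := fun j => by
    have := hx1 j
    simp only [hk]
    nlinarith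
  have hks : ∀ j, k j < s := fun j => by
    have h1 := mul_pos hDpos (hxpos j)
    simp only [hk]
    have : D * (1 - (1 / 2) ^ j) = D - D * (1 / 2) ^ j := by ring
    rw [this]; linarith
  have key : ∀ j, a (k j) ≤ a t * ((1 / 2) ^ j) ^ n := by
    intro j
    induction j with
    | zero => simp [hk]
    | succ j ih =>
      by_contra hc
      rw [not_le] at hc
      set x : ℝ := (1 / 2) ^ j with hx
      have hx0 : 0 < x := hxpos j
      have hx1' : x ≤ 1 := hx1 j
      have hsucc : ((1 / 2 : ℝ)) ^ (j + 1) = x / 2 := by rw [pow_succ, hx]; ring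
      rw [hsucc] at hc
      have h1 := hrec (k j) (k (j + 1)) (lt_of_lt_of_le ht (hkt j)) (by
        have := hkj j
        have h2 : 0 < D * (x / 2) := by positivity
        linarith)
      rw [hkj j] at h1
      have h2 : (D * (x / 2) * (a t * (x / 2) ^ n)) ^ n < (D * (x / 2) * a (k (j + 1))) ^ n := by
        refine pow_lt_pow_left₀ ?_ (by positivity) (by omega)
        exact mul_lt_mul_of_pos_left hc (by positivity)
      have h3 : C * K ^ n * a (k j) ^ (n + 2) ≤ C * K ^ n * (a t * x ^ n) ^ (n + 2) :=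
        mul_le_mul_of_nonneg_left (pow_le_pow_left₀ (ha0 _) ih _) (by positivity)
      have h4 : C * K ^ n * (a t * x ^ n) ^ (n + 2) <
          (D * (x / 2) * (a t * (x / 2) ^ n)) ^ n := by
        have e1 : (D * (x / 2) * (a t * (x / 2) ^ n)) ^ n =
            D ^ n * (a t ^ n * x ^ (n * (n + 1)) / 2 ^ (n * (n + 1))) := by
          rw [show D * (x / 2) * (a t * (x / 2) ^ n) = D * a t * (x / 2) ^ (n + 1) by ring,
            mul_pow, mul_pow, ← pow_mul, div_pow, mul_comm (n + 1) n]
          ring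
        have e2 : C * K ^ n * (a t * x ^ n) ^ (n + 2) =
            C * K ^ n * a t ^ 2 * (a t ^ n * x ^ (n * (n + 2))) := by
          rw [mul_pow, ← pow_mul, pow_add]; ring
        have h5 : x ^ (n * (n + 2)) ≤ x ^ (n * (n + 1)) :=
          pow_le_pow_of_le_one hx0.le hx1' (Nat.mul_le_mul_left n (by omega))
        rw [e1, e2]
        calc C * K ^ n * a t ^ 2 * (a t ^ n * x ^ (n * (n + 2))) ≤
              C * K ^ n * a t ^ 2 * (a t ^ n * x ^ (n * (n + 1))) :=
              mul_le_mul_of_nonneg_left (mul_le_mul_of_nonneg_left h5 (by positivity))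
                (by positivity)
          _ = C * 2 ^ (n * (n + 1)) * (K ^ n * a t ^ 2) *
                (a t ^ n * x ^ (n * (n + 1)) / 2 ^ (n * (n + 1))) := by
              field_simp
          _ < D ^ n * (a t ^ n * x ^ (n * (n + 1)) / 2 ^ (n * (n + 1))) :=
              mul_lt_mul_of_pos_right hA (by positivity)
      linarith
  have hlim : Tendsto (fun j : ℕ => a t * ((1 / 2 : ℝ) ^ j) ^ n) atTop (𝓝 (a t * 0 ^ n)) := by
    have h1 : Tendsto (fun j : ℕ => (1 / 2 : ℝ) ^ j) atTop (𝓝 0) :=
      tendsto_pow_atTop_nhds_zero_of_lt_one (by norm_num) (by norm_num)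
    exact (h1.pow n).const_mul _
  rw [zero_pow (by omega), mul_zero] at hlim
  have h6 : a s ≤ 0 := ge_of_tendsto' hlim fun j => (hanti (hks j).le).trans (key j)
  linarith

end Pool.Agent.Y520.AR
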