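import Pool.Agent.Y520.AR.Step

/-!
# The comparison principle
-/

set_option autoImplicit false

open MeasureTheory Set Filter Topology Laplacian InnerProductSpace
open scoped ContDiff

namespace Pool.Agent.Y520.AR

open Pool.Agent.H947R3

theorem TypeR.tangent {f : ℝ → ℝ} (hf : TypeR f) (a b : ℝ) :
    f a + deriv f a * (b - a) ≤ f b := by
  rcases lt_trichotomy a b with h | h | h
  · have h1 := hf.convex.deriv_le_slope (mem_univ a) (mem_univ b) h (hf.diff a)
    rw [slope_def_field, le_div_iff₀ (by linarith)] at h1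
    linarith
  · subst h; simp
  · have h1 := hf.convex.slope_le_deriv (mem_univ b) (mem_univ a) h (hf.diff a)
    rw [slope_def_field, div_le_iff₀ (by linarith)] at h1
    linarith

theorem lap_comb {n : ℕ} {u v w : E n → ℝ} {x : E n} (hu : ContDiffAt ℝ 2 u x)
    (hv : ContDiffAt ℝ 2 v x) (hw : ContDiffAt ℝ 2 w x) (a b k : ℝ) :
    Δ (fun x => a * u x + b * v x + w x + k) x = a * Δ u x + b * Δ v x + Δ w x := by
  have h0 : (fun x => a * u x + b * v x + w x + k) = ((a • u + b • v) + w) + fun _ => k := by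
    funext x; simp
  have h1 : ContDiffAt ℝ 2 (a • u) x := contDiffAt_const.smul hu
  have h2 : ContDiffAt ℝ 2 (b • v) x := contDiffAt_const.smul hv
  have h12 : ContDiffAt ℝ 2 (a • u + b • v) x := h1.add h2
  have h123 : ContDiffAt ℝ 2 (a • u + b • v + w) x := h12.add hw
  rw [h0, h123.laplacian_add contDiffAt_const, h12.laplacian_add hw,
    h1.laplacian_add h2, laplacian_smul a hu, laplacian_smul b hv]
  simp

theorem t_CMPR : S_CMPR := by
  intro n Ω c B f l l' u u' w hΩ hb hD hf hl hll hu hu' huu hw hwc hwb hwl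
  intro x₁ hx₁
  by_contra hcon
  rw [not_le] at hcon
  have hcomp : IsCompact (closure Ω) := hb.isCompact_closure
  -- bound for the potential
  obtain ⟨Vm, hVm⟩ := hcomp.bddAbove_image
    ((hf.deriv_cont.comp_continuousOn hu.cont).const_smul l |>.congr (g := fun x => l * deriv f (u x))
      fun x _ => rfl)
  have hVm0 : ∀ x ∈ closure Ω, l * deriv f (u x) ≤ Vm := fun x hx => hVm (mem_image_of_mem _ hx)
  have hVn : ∀ x, 0 ≤ l * deriv f (u x) := fun x => mul_nonneg hl.le (hf.deriv_nonneg _)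
  have hVmn : 0 ≤ Vm := (hVn x₁).trans (hVm0 x₁ hx₁)
  set e : ℝ := (l' - l) / (2 * (Vm + 1)) with he
  have he0 : 0 < e := by rw [he]; apply div_pos <;> linarith
  have heV : e * Vm < l' - l := by
    have h1 : e * (2 * (Vm + 1)) = l' - l := by rw [he]; field_simp
    nlinarith
  set Z : E n → ℝ := fun x => u' x - u x + e with hZ
  have hZc : ContinuousOn Z (closure Ω) := (hu'.cont.sub hu.cont).add continuousOn_const
  have hZpos : ∀ x ∈ closure Ω, e ≤ Z x := by
    intro x hx
    by_cases hxΩ : x ∈ Ω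
    · have := huu x hxΩ
      simp only [hZ]; linarith
    · have hxf : x ∈ frontier Ω := by rw [frontier, hΩ.interior_eq]; exact ⟨hx, hxΩ⟩
      simp only [hZ]; rw [hu.bdry x hxf, hu'.bdry x hxf]; linarith
  set h : E n → ℝ := fun x => u x - w x with hh
  have hhc : ContinuousOn h (closure Ω) := hu.cont.sub hwc
  have hq : ContinuousOn (fun x => h x / Z x) (closure Ω) :=
    hhc.div hZc fun x hx => (lt_of_lt_of_le he0 (hZpos x hx)).ne'
  obtain ⟨y, hy, hmax⟩ := hcomp.exists_isMaxOn ⟨x₁, hx₁⟩ hq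
  set m := h y / Z y with hm
  have hZy : 0 < Z y := lt_of_lt_of_le he0 (hZpos y hy)
  have hm0 : 0 < m := by
    have h1 : 0 < h x₁ / Z x₁ := by
      apply div_pos
      · simp only [hh]; linarith
      · exact lt_of_lt_of_le he0 (hZpos x₁ hx₁)
    exact lt_of_lt_of_le h1 (hmax hx₁)
  have hhy : h y = m * Z y := by rw [hm]; field_simp
  have hyΩ : y ∈ Ω := by
    by_contra hyn
    have hyf : y ∈ frontier Ω := by rw [frontier, hΩ.interior_eq]; exact ⟨hy, hyn⟩
    have h1 := hu.bdry y hyf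
    have h2 := hwb y hyf
    have h3 : h y ≤ 0 := by simp only [hh]; linarith
    have := mul_pos hm0 hZy
    linarith
  -- `q = m Z - h` has a local minimum at `y`
  set q : E n → ℝ := fun x => m * u' x + (-(m + 1)) * u x + w x + m * e with hqd
  have hqeq : ∀ x, q x = m * Z x - h x := fun x => by simp only [hqd, hZ, hh]; ring
  have hloc : IsLocalMin q y := by
    filter_upwards [hΩ.mem_nhds hyΩ] with z hz
    rw [hqeq, hqeq, hhy, sub_self]
    have h1 : h z / Z z ≤ m := hmax (subset_closure hz)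
    rw [div_le_iff₀ (lt_of_lt_of_le he0 (hZpos z (subset_closure hz)))] at h1
    linarith
  have cu : ContDiffAt ℝ 2 u y := hu.c2.contDiffAt (hΩ.mem_nhds hyΩ)
  have cu' : ContDiffAt ℝ 2 u' y := hu'.c2.contDiffAt (hΩ.mem_nhds hyΩ)
  have cw : ContDiffAt ℝ 2 w y := hw.contDiffAt (hΩ.mem_nhds hyΩ)
  have c1 : ContDiffAt ℝ 2 (fun x => m * u' x) y := contDiffAt_const.mul cu'
  have c2 : ContDiffAt ℝ 2 (fun x => (-(m + 1)) * u x) y := contDiffAt_const.mul cu
  have c12 := c1.add c2
  have c123 := c12.add cw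
  have cq : ContDiffAt ℝ 2 q y := c123.add contDiffAt_const
  have hlap := lap_nonneg_of_isLocalMin cq hloc
  have hgrad : fderiv ℝ q y = 0 := hloc.fderiv_eq_zero
  have el : Δ q y = m * Δ u' y + (-(m + 1)) * Δ u y + Δ w y := lap_comb cu' cu cw _ _ _
  have du : DifferentiableAt ℝ u y := cu.differentiableAt (by norm_num)
  have du' : DifferentiableAt ℝ u' y := cu'.differentiableAt (by norm_num)
  have dw : DifferentiableAt ℝ w y := cw.differentiableAt (by norm_num)
  have ed : fderiv ℝ q y (c y) = m * fderiv ℝ u' y (c y) + (-(m + 1)) * fderiv ℝ u y (c y) +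
      fderiv ℝ w y (c y) := by
    have h1 : HasFDerivAt q (m • fderiv ℝ u' y + (-(m + 1)) • fderiv ℝ u y + fderiv ℝ w y) y :=
      (((du'.hasFDerivAt.const_mul m).add (du.hasFDerivAt.const_mul (-(m + 1)))).add
        dw.hasFDerivAt).add_const _
    rw [h1.fderiv]
    simp
  have e1 := hu.eq y hyΩ
  have e2 := hu'.eq y hyΩ
  have e3 := hwl y hyΩ
  have hneg : -(Δ q y) + fderiv ℝ q y (c y) ≤ 0 := by
    rw [hgrad]; simp; exact hlap
  rw [el, ed] at hneg
  have hexp : -(m * Δ u' y + (-(m + 1)) * Δ u y + Δ w y) +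
      (m * fderiv ℝ u' y (c y) + (-(m + 1)) * fderiv ℝ u y (c y) + fderiv ℝ w y (c y)) =
      m * (l' * f (u' y)) - (m + 1) * (l * f (u y)) + (-(Δ w y) + fderiv ℝ w y (c y)) := by
    rw [← e1, ← e2]; ring
  rw [hexp] at hneg
  -- the nonlinearity
  have hfu' : 1 ≤ f (u' y) := hf.one_le (hu'.nonneg y hyΩ)
  have t1 := hf.tangent (u y) (u' y)
  have t2 := hf.tangent (u y) (w y)
  have hV := hVm0 y hy
  have hV0 := hVn y
  have hZy' : Z y = u' y - u y + e := rfl
  have hhy' : u y - w y = m * Z y := hhy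
  have hpos : (l' - l) - l * deriv f (u y) * e > 0 := by
    have := mul_le_mul_of_nonneg_right hV he0.le
    linarith
  have k1 : l' * f (u' y) - l * f (u y) - l * deriv f (u y) * Z y > 0 := by
    have a1 : l * (f (u' y) - f (u y)) ≥ l * (deriv f (u y) * (u' y - u y)) :=
      mul_le_mul_of_nonneg_left (by linarith) hl.le
    have h9 : (l' - l) * f (u' y) ≥ (l' - l) * 1 :=
      mul_le_mul_of_nonneg_left hfu' (by linarith)
    rw [hZy']
    linarith
  have k2 : l * f (w y) - l * f (u y) ≥ -(l * deriv f (u y) * (m * Z y)) := by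
    have a2 : l * (f (w y) - f (u y)) ≥ l * (deriv f (u y) * (w y - u y)) :=
      mul_le_mul_of_nonneg_left (by linarith) hl.le
    rw [← hhy']
    linarith
  have k3 := mul_pos hm0 k1
  linarith

end Pool.Agent.Y520.AR
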