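import Pool.Agent.Y520.AR.Stm

/-!
# The branch of semi-stable solutions is bounded: assembly
-/

set_option autoImplicit false

open MeasureTheory Set Filter Topology Laplacian InnerProductSpace
open scoped ContDiff

namespace Pool.Agent.Y520.AR

open Pool.Agent.H947R3

section real

variable {f : ℝ → ℝ}

theorem TypeR.diff (hf : TypeR f) : Differentiable ℝ f := hf.smooth.differentiable (by norm_num)

theorem TypeR.one_le (hf : TypeR f) {t : ℝ} (ht : 0 ≤ t) : 1 ≤ f t := by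
  have := hf.increasing.monotone ht
  rwa [hf.at_zero] at this

theorem TypeR.deriv_growth (hf : TypeR f) {t : ℝ} (ht : 0 ≤ t) : f t - 1 ≤ deriv f t * t := by
  rcases ht.eq_or_lt with h | h
  · rw [← h, hf.at_zero]; simp
  · have h1 := hf.convex.slope_le_deriv (mem_univ 0) (mem_univ t) h (hf.diff t)
    rw [slope_def_field, div_le_iff₀ (by linarith), hf.at_zero] at h1
    linarith

theorem TypeR.superlin (hf : TypeR f) (A : ℝ) : ∃ T : ℝ, 0 < T ∧ ∀ t, T ≤ t → A * t ≤ f t := by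
  obtain ⟨T, hT⟩ := (tendsto_atTop_atTop.1 hf.superlinear) A
  refine ⟨max T 1, by positivity, fun t ht => ?_⟩
  have h1 := hT t ((le_max_left _ _).trans ht)
  have h2 : 0 < t := lt_of_lt_of_le one_pos ((le_max_right _ _).trans ht)
  rwa [le_div_iff₀ h2] at h1

theorem growth_deriv (hf : TypeR f) {p : ℕ}
    (h : ∃ c t₀ : ℝ, 0 < c ∧ ∀ t, t₀ ≤ t → c * t ^ (p + 1) ≤ f t) :
    ∃ c t₀ : ℝ, 0 < c ∧ 0 < t₀ ∧ ∀ t, t₀ ≤ t → c * t ^ p ≤ deriv f t := by
  obtain ⟨c, t₀, hc, h⟩ := h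
  obtain ⟨T, hT, hTT⟩ := hf.superlin 2
  refine ⟨c / 2, max t₀ (max T 1), by positivity, by positivity, fun t ht => ?_⟩
  have h1 := h t ((le_max_left _ _).trans ht)
  have ht1 : 1 ≤ t := (le_max_right _ _).trans ((le_max_right _ _).trans ht)
  have h2 := hTT t ((le_max_left _ _).trans ((le_max_right _ _).trans ht))
  have h3 := hf.deriv_growth (show 0 ≤ t by linarith)
  have h4 : f t / 2 ≤ f t - 1 := by nlinarith
  have h5 : c / 2 * t ^ p * t ≤ deriv f t * t := by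
    rw [pow_succ] at h1
    nlinarith
  exact le_of_mul_le_mul_right h5 (by linarith)

end real

section branch

variable {n : ℕ} {Ω : Set (E n)} {c : E n → E n} {B : ℝ} {f : ℝ → ℝ}

/-- classical solutions are bounded -/
theorem Ad.bounded {u : E n → ℝ} (hb : Bornology.IsBounded Ω) (hu : Ad Ω u) :
    ∃ M : ℝ, 0 < M ∧ ∀ x ∈ Ω, u x ≤ M := by
  obtain ⟨M, hM⟩ := hb.isCompact_closure.bddAbove_image hu.cont
  refine ⟨max M 1, by positivity, fun x hx => ?_⟩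
  exact (hM (mem_image_of_mem u (subset_closure hx))).trans (le_max_left _ _)

theorem measurableSet_LV {u : E n → ℝ} (hΩ : IsOpen Ω) (hu : Ad Ω u) (t : ℝ) :
    MeasurableSet {x | x ∈ Ω ∧ t < u x} := by
  have h1 : IsOpen {x | x ∈ Ω ∧ t < u x} := by
    have := hu.c2.continuousOn.isOpen_inter_preimage hΩ (isOpen_Ioi (a := t))
    exact this
  exact h1.measurableSet

theorem LV_nonneg {u : E n → ℝ} (t : ℝ) : 0 ≤ LV Ω u t := measureReal_nonneg

/-- integrability of the composition -/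
theorem integrable_comp {u g : E n → ℝ} {F : ℝ → ℝ} (hb : Bornology.IsBounded Ω)
    (hu : Ad Ω u) (hF : Continuous F) (hg : Continuous g) :
    IntegrableOn (fun x => F (u x) * g x) Ω := by
  have h1 : ContinuousOn (fun x => F (u x) * g x) (closure Ω) :=
    (hF.comp_continuousOn hu.cont).mul hg.continuousOn
  exact (h1.integrableOn_compact hb.isCompact_closure).mono_set subset_closure

end branch

section main

variable {n : ℕ} {Ω : Set (E n)} {c : E n → E n} {B : ℝ} {f : ℝ → ℝ} {ls : ℝ}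
  {u : ℝ → E n → ℝ}

theorem reach (hIV : S_IVT) (hΩ : IsOpen Ω) (hb : Bornology.IsBounded Ω) (hD : Drift Ω c B)
    (hf : TypeR f) (hls : 0 < ls) (hsol : ∀ l, 0 < l → l < ls → Sol Ω c f l (u l))
    (hmono : ∀ l l', 0 < l → l < l' → l' < ls → ∀ x ∈ Ω, u l x ≤ u l' x)
    (hun : ∀ C : ℝ, ∃ l, 0 < l ∧ l < ls ∧ ∃ x ∈ Ω, C < u l x) :
    ∃ M₀ : ℝ, 0 < M₀ ∧ ∀ M, M₀ ≤ M → ∃ l, ls / 2 ≤ l ∧ l < ls ∧ (∀ x ∈ Ω, u l x ≤ M) ∧
      ∃ x ∈ Ω, u l x = M := by
  obtain ⟨M₀, hM₀, hM⟩ := (hsol (ls / 2) (by linarith) (by linarith)).toAd.bounded hb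
  refine ⟨M₀, hM₀, fun M hMM => ?_⟩
  obtain ⟨l₁, h1, h2, x, hx, h3⟩ := hun M
  have hl : ls / 2 < l₁ := by
    by_contra hcon
    rcases (not_lt.1 hcon).eq_or_lt with h | h
    · rw [h] at h3
      linarith [hM x hx]
    · have := hmono l₁ (ls / 2) h1 h (by linarith) x hx
      linarith [hM x hx]
  exact hIV n Ω c B f ls u hΩ hb hD hf hsol hmono (ls / 2) l₁ M (by linarith) hl h2
    (by linarith) (fun x hx => (hM x hx).trans hMM) ⟨x, hx, h3⟩

theorem source_le (hf : TypeR f) (hsol : ∀ l, 0 < l → l < ls → Sol Ω c f l (u l)) {l M : ℝ}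
    (h1 : 0 < l) (h2 : l < ls) (hM : ∀ x ∈ Ω, u l x ≤ M) :
    ∀ x ∈ Ω, -(Δ (u l) x) + fderiv ℝ (u l) x (c x) ≤ ls * f M := by
  intro x hx
  rw [(hsol l h1 h2).eq x hx]
  have h3 := hf.increasing.monotone (hM x hx)
  have h4 := hf.one_le ((hsol l h1 h2).nonneg x hx)
  nlinarith

/-- the lower bound for the measure of the superlevel sets -/
theorem bump (hBU : S_BUMP) (hn : 2 ≤ n) (hΩ : IsOpen Ω) (hb : Bornology.IsBounded Ω)
    (hD : Drift Ω c B) (hf : TypeR f) (hls : 0 < ls)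
    (hsol : ∀ l, 0 < l → l < ls → Sol Ω c f l (u l)) :
    ∃ κ M₁ : ℝ, 0 < κ ∧ 0 < M₁ ∧ ∀ M, M₁ ≤ M → ∀ l, ls / 2 ≤ l → l < ls →
      (∀ x ∈ Ω, u l x ≤ M) → (∃ x ∈ Ω, u l x = M) → ∀ t, 0 < t → t < M →
      κ * (M - t) ^ n ≤ (2 * (ls * f M)) ^ n * LV Ω (u l) t ^ 2 := by
  obtain ⟨κ, hκ, hB⟩ := hBU n hn
  obtain ⟨T, hT, hTT⟩ := hf.superlin (n * B / ls)
  refine ⟨κ, T, hκ, hT, fun M hM l h1 h2 h3 h4 t ht htM => ?_⟩
  obtain ⟨x, hx, hxM⟩ := h4
  have hM0 : 0 < M := ht.trans htM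
  have hf1 := hf.one_le hM0.le
  have hK : 0 < ls * f M := by positivity
  have h5 := hB Ω c B (ls * f M) M (u l) hΩ hb hD hK (hsol l (by linarith) h2).toAd h3
    (source_le hf hsol (by linarith) h2 h3) t ht x hx (by rw [hxM]; exact htM)
  rw [hxM] at h5
  refine h5.trans (mul_le_mul_of_nonneg_right (pow_le_pow_left₀ ?_ ?_ n) (sq_nonneg _))
  · have := hD.nonneg
    positivity
  · have h6 := hTT M hM
    rw [div_mul_eq_mul_div, div_le_iff₀ hls] at h6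
    linarith

/-- the first growth estimate, from the weighted `L¹` bound and the boundary barrier -/
theorem first_growth (hBU : S_BUMP) (hBA : S_BAR) (hWL : S_WL) (hn : 2 ≤ n)
    (hΩ : IsOpen Ω) {d : E n → ℝ} (hd : Dom Ω d)
    (hD : Drift Ω c B) (hf : TypeR f) (hls : 0 < ls)
    (hsol : ∀ l, 0 < l → l < ls → Sol Ω c f l (u l))
    (hreach : ∃ M₀ : ℝ, 0 < M₀ ∧ ∀ M, M₀ ≤ M → ∃ l, ls / 2 ≤ l ∧ l < ls ∧
      (∀ x ∈ Ω, u l x ≤ M) ∧ ∃ x ∈ Ω, u l x = M) :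
    ∃ c M₀ : ℝ, 0 < c ∧ ∀ M, M₀ ≤ M → c * f (M / 2) ^ 2 * M ^ (n + 1) ≤ f M ^ (n + 1) := by
  have hb := hd.bounded
  obtain ⟨κ, M₁, hκ, hM₁, hbump⟩ := bump hBU hn hΩ hb hD hf hls hsol
  obtain ⟨s, η, hs, hη, hbar⟩ := hBA n Ω d c B hd hD
  obtain ⟨CW, hCW⟩ := hWL n Ω d c B f (ls / 2) hd hD hf (by linarith)
  obtain ⟨M₀, hM₀, hreach⟩ := hreach
  obtain ⟨T, hT, hTT⟩ := hf.superlin (1 / (s * ls))
  have hc0 : 0 < 2 ^ n * 2 ^ n * ls ^ (n + 1) * (CW ^ 2 + 1) := by positivity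
  refine ⟨κ * η / (2 ^ n * 2 ^ n * ls ^ (n + 1) * (CW ^ 2 + 1)), max M₀ (max M₁ T), by positivity,
    fun M hM => ?_⟩
  have hM0 := (le_max_left _ _).trans hM
  have hM1 := (le_max_left _ _).trans ((le_max_right _ _).trans hM)
  have hM2 := (le_max_right _ _).trans ((le_max_right _ _).trans hM)
  have hMpos : 0 < M := lt_of_lt_of_le hM₀ hM0
  obtain ⟨l, h1, h2, h3, h4⟩ := hreach M hM0
  have hl : 0 < l := by linarith
  have hS := hsol l hl h2
  have hfM := hf.one_le hMpos.le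
  have hfM2 := hf.one_le (show 0 ≤ M / 2 by linarith)
  set K := ls * f M with hK
  have hKpos : 0 < K := by positivity
  have hb1 := hbump M hM1 l h1 h2 h3 h4 (M / 2) (by linarith) (by linarith)
  have hMK : M ≤ s * K := by
    have h5 := hTT M hM2
    rw [div_mul_eq_mul_div, one_mul, div_le_iff₀ (by positivity)] at h5
    rw [hK]; linarith
  have hb2 := hbar (u l) M K hS.toAd hMpos hKpos hMK h3 (source_le hf hsol hl h2 h3)
  -- on the superlevel set `d² K > η M`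
  set r := Real.sqrt (η * M / K) with hr
  have hr0 : 0 ≤ r := Real.sqrt_nonneg _
  have hr2 : r ^ 2 = η * M / K := Real.sq_sqrt (by positivity)
  have hsub : ∀ x ∈ {x | x ∈ Ω ∧ M / 2 < u l x}, f (M / 2) * r ≤ f (u l x) * d x := by
    rintro x ⟨hx, hxu⟩
    have h6 : r ≤ d x := by
      by_contra hcon
      rw [not_le] at hcon
      have hdx := (hd.mem x).1 hx
      have h7 : d x ^ 2 * K ≤ η * M := by
        have h8 : d x ^ 2 ≤ r ^ 2 := pow_le_pow_left₀ hdx.le hcon.le 2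
        rw [hr2] at h8
        calc d x ^ 2 * K ≤ η * M / K * K := mul_le_mul_of_nonneg_right h8 hKpos.le
          _ = η * M := by field_simp
      have := hb2 x hx h7
      linarith
    have h7 : f (M / 2) ≤ f (u l x) := hf.increasing.monotone hxu.le
    exact mul_le_mul h7 h6 hr0 (by linarith)
  have hint : IntegrableOn (fun x => f (u l x) * d x) Ω :=
    integrable_comp hb hS.toAd hf.smooth.continuous hd.c2.continuous
  have hsub2 : {x | x ∈ Ω ∧ M / 2 < u l x} ⊆ Ω := fun x hx => hx.1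
  have hfin : volume {x | x ∈ Ω ∧ M / 2 < u l x} ≠ ⊤ :=
    ((measure_mono hsub2).trans_lt hb.measure_lt_top).ne
  have hI1 : f (M / 2) * r * LV Ω (u l) (M / 2) ≤ CW := by
    calc f (M / 2) * r * LV Ω (u l) (M / 2) =
          ∫ _ in {x | x ∈ Ω ∧ M / 2 < u l x}, f (M / 2) * r := by
          rw [setIntegral_const, smul_eq_mul, mul_comm]; rfl
      _ ≤ ∫ x in {x | x ∈ Ω ∧ M / 2 < u l x}, f (u l x) * d x :=
          setIntegral_mono_on (integrableOn_const hfin) (hint.mono_set hsub2)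
            (measurableSet_LV hΩ hS.toAd _) hsub
      _ ≤ ∫ x in Ω, f (u l x) * d x := by
          refine setIntegral_mono_set hint ?_ (Eventually.of_forall hsub2)
          refine (ae_restrict_iff' hΩ.measurableSet).2 (Eventually.of_forall fun x hx => ?_)
          have := hf.one_le (hS.nonneg x hx)
          have := (hd.mem x).1 hx
          simp only [Pi.zero_apply]
          positivity
      _ ≤ CW := hCW l (u l) h1 hS
  have hL0 : 0 ≤ LV Ω (u l) (M / 2) := LV_nonneg _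
  have hI2 : f (M / 2) ^ 2 * (η * M / K) * LV Ω (u l) (M / 2) ^ 2 ≤ CW ^ 2 := by
    rw [← hr2, ← mul_pow, ← mul_pow]
    exact pow_le_pow_left₀ (by positivity) hI1 2
  have hI3 : f (M / 2) ^ 2 * (η * M) * LV Ω (u l) (M / 2) ^ 2 ≤ CW ^ 2 * K := by
    have h8 := mul_le_mul_of_nonneg_right hI2 hKpos.le
    have h9 : f (M / 2) ^ 2 * (η * M / K) * LV Ω (u l) (M / 2) ^ 2 * K =
      f (M / 2) ^ 2 * (η * M) * LV Ω (u l) (M / 2) ^ 2 := by field_simp
    rwa [h9] at h8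
  -- combine
  have h10 : κ * (M - M / 2) ^ n * (f (M / 2) ^ 2 * (η * M)) ≤ (2 * K) ^ n * (CW ^ 2 * K) := by
    calc κ * (M - M / 2) ^ n * (f (M / 2) ^ 2 * (η * M)) ≤
          (2 * K) ^ n * LV Ω (u l) (M / 2) ^ 2 * (f (M / 2) ^ 2 * (η * M)) :=
          mul_le_mul_of_nonneg_right hb1 (by positivity)
      _ = (2 * K) ^ n * (f (M / 2) ^ 2 * (η * M) * LV Ω (u l) (M / 2) ^ 2) := by ring
      _ ≤ _ := mul_le_mul_of_nonneg_left hI3 (by positivity)
  have h11 : κ * η * f (M / 2) ^ 2 * M ^ (n + 1) ≤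
      2 ^ n * 2 ^ n * ls ^ (n + 1) * (CW ^ 2 + 1) * f M ^ (n + 1) := by
    have e1 : κ * (M - M / 2) ^ n * (f (M / 2) ^ 2 * (η * M)) =
        κ * η * f (M / 2) ^ 2 * M ^ (n + 1) / 2 ^ n := by
      rw [show M - M / 2 = M / 2 by ring, div_pow]; ring
    have e2 : (2 * K) ^ n * (CW ^ 2 * K) = 2 ^ n * ls ^ (n + 1) * CW ^ 2 * f M ^ (n + 1) := by
      rw [hK]; ring
    rw [e1, e2, div_le_iff₀ (by positivity)] at h10
    have h12 : 2 ^ n * ls ^ (n + 1) * CW ^ 2 * f M ^ (n + 1) * 2 ^ n ≤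
        2 ^ n * 2 ^ n * ls ^ (n + 1) * (CW ^ 2 + 1) * f M ^ (n + 1) := by
      have h13 : 0 ≤ 2 ^ n * 2 ^ n * ls ^ (n + 1) * f M ^ (n + 1) := by positivity
      nlinarith
    exact h10.trans h12
  rw [div_mul_eq_mul_div, div_mul_eq_mul_div, div_le_iff₀ hc0]
  linarith

/-- the growth estimates from the energy steps -/
theorem step_growth (hBU : S_BUMP) (hST : S_STEP) (hn : 2 ≤ n)
    (hΩ : IsOpen Ω) (hb : Bornology.IsBounded Ω)
    (hD : Drift Ω c B) (hf : TypeR f) (hls : 0 < ls)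
    (hsol : ∀ l, 0 < l → l < ls → Sol Ω c f l (u l))
    (hmono : ∀ l l', 0 < l → l < l' → l' < ls → ∀ x ∈ Ω, u l x ≤ u l' x)
    (hreach : ∃ M₀ : ℝ, 0 < M₀ ∧ ∀ M, M₀ ≤ M → ∃ l, ls / 2 ≤ l ∧ l < ls ∧
      (∀ x ∈ Ω, u l x ≤ M) ∧ ∃ x ∈ Ω, u l x = M) {j : ℕ} (hj : j ≤ 3)
    (hgr : ∃ c t₀ : ℝ, 0 < c ∧ ∀ t, t₀ ≤ t → c * t ^ 4 ≤ deriv f t ^ (4 - j)) :
    ∃ c M₀ : ℝ, 0 < c ∧ 0 < M₀ ∧ ∀ t M, M₀ ≤ t → t < M →
      c * (M - t) ^ (2 * n) * f t ^ (4 + j) ≤ f M ^ (2 * n) * t ^ j := by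
  obtain ⟨κ, M₁, hκ, hM₁, hbump⟩ := bump hBU hn hΩ hb hD hf hls hsol
  obtain ⟨C, hC, hstep⟩ := hST n Ω c B f (ls / 2) j hΩ hb hD hf (by linarith) hj hgr
  obtain ⟨M₀, hM₀, hreach⟩ := hreach
  obtain ⟨T, hT, hTT⟩ := hf.superlin 2
  refine ⟨κ ^ 2 / (2 ^ (4 + j) * (2 * ls) ^ (2 * n) * (C + 1)), max M₀ (max M₁ (max T 1)),
    by positivity, by positivity, fun t M ht htM => ?_⟩
  have ht0 := (le_max_left _ _).trans ht
  have ht1 := (le_max_left _ _).trans ((le_max_right _ _).trans ht)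
  have ht2 := (le_max_left _ _).trans ((le_max_right _ _).trans ((le_max_right _ _).trans ht))
  have ht3 := (le_max_right _ _).trans ((le_max_right _ _).trans ((le_max_right _ _).trans ht))
  have htpos : 0 < t := lt_of_lt_of_le hM₀ ht0
  obtain ⟨l, h1, h2, h3, h4⟩ := hreach M (by linarith)
  have hl : 0 < l := by linarith
  have hS := hsol l hl h2
  have hfM := hf.one_le (show 0 ≤ M by linarith)
  have hft := hf.one_le htpos.le
  have hft2 : f t / 2 ≤ f t - 1 := by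
    have := hTT t ht2
    nlinarith
  have hb1 := hbump M (by linarith) l h1 h2 h3 h4 t htpos htM
  have hs1 := hstep l ((l + ls) / 2) (u l) (u ((l + ls) / 2)) h1 (by linarith) hS
    (hsol _ (by linarith) (by linarith)) (hmono _ _ hl (by linarith) (by linarith)) t htpos
  have hL0 : 0 ≤ LV Ω (u l) t := LV_nonneg _
  have hMt : 0 < M - t := by linarith
  have h5 : κ ^ 2 * (M - t) ^ (2 * n) ≤ (2 * (ls * f M)) ^ (2 * n) * LV Ω (u l) t ^ 4 := by
    have h6 := pow_le_pow_left₀ (by positivity) hb1 2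
    calc κ ^ 2 * (M - t) ^ (2 * n) = (κ * (M - t) ^ n) ^ 2 := by rw [mul_pow, ← pow_mul]; ring_nf
      _ ≤ _ := h6
      _ = _ := by rw [mul_pow, ← pow_mul]; ring_nf
  have h6 : (f t / 2) ^ (4 + j) ≤ (f t - 1) ^ (4 + j) :=
    pow_le_pow_left₀ (by positivity) hft2 _
  have h7 : κ ^ 2 * (M - t) ^ (2 * n) * (f t / 2) ^ (4 + j) ≤
      (2 * (ls * f M)) ^ (2 * n) * (C * t ^ j) := by
    calc κ ^ 2 * (M - t) ^ (2 * n) * (f t / 2) ^ (4 + j) ≤
          (2 * (ls * f M)) ^ (2 * n) * LV Ω (u l) t ^ 4 * (f t - 1) ^ (4 + j) :=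
          mul_le_mul h5 h6 (by positivity) (by positivity)
      _ = (2 * (ls * f M)) ^ (2 * n) * (LV Ω (u l) t ^ 4 * (f t - 1) ^ (4 + j)) := by ring
      _ ≤ _ := mul_le_mul_of_nonneg_left hs1 (by positivity)
  have h8 : κ ^ 2 * (M - t) ^ (2 * n) * f t ^ (4 + j) ≤
      2 ^ (4 + j) * (2 * ls) ^ (2 * n) * (C + 1) * (f M ^ (2 * n) * t ^ j) := by
    rw [div_pow, ← mul_div_assoc, div_le_iff₀ (by positivity)] at h7
    have e1 : (2 * (ls * f M)) ^ (2 * n) = (2 * ls) ^ (2 * n) * f M ^ (2 * n) := by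
      rw [← mul_pow]; ring_nf
    rw [e1] at h7
    have h9 : 0 ≤ (2 * ls) ^ (2 * n) * f M ^ (2 * n) * t ^ j * 2 ^ (4 + j) := by positivity
    nlinarith
  rw [div_mul_eq_mul_div, div_mul_eq_mul_div, div_le_iff₀ (by positivity)]
  linarith

/-- **The branch is bounded.** -/
theorem bounded_branch (hBU : S_BUMP) (hBA : S_BAR) (hWL : S_WL) (hIV : S_IVT) (hST : S_STEP)
    (h0 : S_GR0) (h1 : S_GR1) (h2 : S_GR2) (h3 : S_GR3) (hDO : S_DOM)
    (hn : n = 2 ∨ n = 3) (hΩ : IsOpen Ω) (hb : Bornology.IsBounded Ω) (hloc : LocalBoundary Ω)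
    (hD : Drift Ω c B) (hf : TypeR f) (hls : 0 < ls)
    (hsol : ∀ l, 0 < l → l < ls → Sol Ω c f l (u l))
    (hmono : ∀ l l', 0 < l → l < l' → l' < ls → ∀ x ∈ Ω, u l x ≤ u l' x) :
    ∃ C : ℝ, ∀ l, 0 < l → l < ls → ∀ x ∈ Ω, u l x ≤ C := by
  by_contra hcon
  push Not at hcon
  obtain ⟨d, hd⟩ := hDO n Ω hΩ hb hloc
  have hn2 : 2 ≤ n := by omega
  have hreach := reach hIV hΩ hb hD hf hls hsol hmono
    (fun C => by obtain ⟨l, a1, a2, x, a3, a4⟩ := hcon C; exact ⟨l, a1, a2, x, a3, a4⟩)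
  -- first step
  have hg2 := h0 f n hf hn (first_growth hBU hBA hWL hn2 hΩ hd hD hf hls hsol hreach)
  -- `j = 0`
  have hd1 := growth_deriv hf (p := 1) hg2
  have hg3 : ∃ c t₀ : ℝ, 0 < c ∧ ∀ t, t₀ ≤ t → c * t ^ 3 ≤ f t := by
    apply h1 f n hf hn
    obtain ⟨c1, t1, hc1, ht1, hh⟩ := hd1
    obtain ⟨c', M', hc', hM', hstep⟩ := step_growth hBU hST hn2 hΩ hb hD hf hls hsol hmono hreach
      (j := 0) (by norm_num) ⟨c1 ^ 4, t1, by positivity, fun t ht => by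
        have := hh t ht
        have ht0 : 0 < t := by linarith
        rw [pow_one] at this
        simpa [mul_pow] using pow_le_pow_left₀ (by positivity) this 4⟩
    refine ⟨c' / 2 ^ (2 * n), 2 * M', by positivity, fun M hM => ?_⟩
    have h5 := hstep (M / 2) M (by linarith) (by linarith)
    rw [show M - M / 2 = M / 2 by ring, div_pow] at h5
    calc c' / 2 ^ (2 * n) * M ^ (2 * n) * f (M / 2) ^ 4 =
          c' * (M ^ (2 * n) / 2 ^ (2 * n)) * f (M / 2) ^ (4 + 0) := by ring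
      _ ≤ _ := h5
      _ = _ := by ring
  -- `j = 2`
  have hd2 := growth_deriv hf (p := 2) hg3
  have hg5 : ∃ c t₀ : ℝ, 0 < c ∧ ∀ t, t₀ ≤ t → c * t ^ 5 ≤ f t := by
    apply h2 f n hf hn hg3
    obtain ⟨c1, t1, hc1, ht1, hh⟩ := hd2
    obtain ⟨c', M', hc', hM', hstep⟩ := step_growth hBU hST hn2 hΩ hb hD hf hls hsol hmono hreach
      (j := 2) (by norm_num) ⟨c1 ^ 2, t1, by positivity, fun t ht => by
        have := hh t ht
        have ht0 : 0 < t := by linarith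
        have h6 := pow_le_pow_left₀ (by positivity) this 2
        calc c1 ^ 2 * t ^ 4 = (c1 * t ^ 2) ^ 2 := by ring
          _ ≤ _ := h6⟩
    refine ⟨c' / 2 ^ (2 * n), 2 * M', by positivity, fun M hM => ?_⟩
    have h5 := hstep (M / 2) M (by linarith) (by linarith)
    have hM0 : 0 < M := by linarith
    have hfM := hf.one_le hM0.le
    rw [show M - M / 2 = M / 2 by ring, div_pow] at h5
    calc c' / 2 ^ (2 * n) * M ^ (2 * n) * f (M / 2) ^ 6 =
          c' * (M ^ (2 * n) / 2 ^ (2 * n)) * f (M / 2) ^ (4 + 2) := by ring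
      _ ≤ _ := h5
      _ ≤ f M ^ (2 * n) * M ^ 2 := by
          apply mul_le_mul_of_nonneg_left _ (by positivity)
          exact pow_le_pow_left₀ (by positivity) (by linarith) 2
  -- `j = 3`
  have hd4 := growth_deriv hf (p := 4) hg5
  apply h3 f n hf hn hg5
  obtain ⟨c1, t1, hc1, ht1, hh⟩ := hd4
  obtain ⟨c', M', hc', hM', hstep⟩ := step_growth hBU hST hn2 hΩ hb hD hf hls hsol hmono hreach
    (j := 3) le_rfl ⟨c1, t1, hc1, fun t ht => by simpa using hh t ht⟩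
  exact ⟨c', M', hc', fun t M ht htM _ => hstep t M ht htM⟩

end main

end Pool.Agent.Y520.AR
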