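import Pool.Agent.Y520.AR.Step

/-!
# The energy inequality for test functions which do not vanish near zero
-/

set_option autoImplicit false

open MeasureTheory Set Filter Topology Laplacian InnerProductSpace
open scoped ContDiff

namespace Pool.Agent.Y520.AR

open Pool.Agent.H947R3

/-- the cut-off -/
noncomputable def chk (k : ℕ) (s : ℝ) : ℝ := max 0 (min 1 (s * (k + 1) - 1))

theorem chk_cont (k : ℕ) : Continuous (chk k) := by unfold chk; fun_prop

theorem chk_nonneg (k : ℕ) (s : ℝ) : 0 ≤ chk k s := le_max_left _ _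

theorem chk_le (k : ℕ) (s : ℝ) : chk k s ≤ 1 := max_le zero_le_one (min_le_left _ _)

theorem chk_zero {k : ℕ} {s : ℝ} (h : s ≤ 1 / (k + 1)) : chk k s = 0 := by
  have hk : (0 : ℝ) < k + 1 := by positivity
  rw [le_div_iff₀ hk] at h
  unfold chk
  exact max_eq_left ((min_le_right _ _).trans (by linarith))

theorem chk_tendsto {s : ℝ} (hs : 0 < s) : Tendsto (fun k => chk k s) atTop (𝓝 1) := by
  obtain ⟨N, hN⟩ := exists_nat_gt (2 / s)
  refine tendsto_const_nhds.congr' ?_
  filter_upwards [eventually_ge_atTop N] with k hk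
  have h1 : 2 / s < (k : ℝ) + 1 := by
    have : (N : ℝ) ≤ k := by exact_mod_cast hk
    linarith
  rw [div_lt_iff₀ hs] at h1
  have h2 : 1 ≤ s * (k + 1) - 1 := by linarith
  unfold chk
  rw [min_eq_left h2, max_eq_right zero_le_one]

theorem t_MAIN (h0 : S_MAIN0) : S_MAIN := by
  intro n Ω c B f l l' u u' hΩ hb hD hf hl hll hS hS' huu y hy
  set yk : ℕ → ℝ → ℝ := fun k s => y s * chk k s with hyk
  have hykc : ∀ k, Continuous (yk k) := fun k => hy.mul (chk_cont k)
  have hyk2c : ∀ k, Continuous (fun s => yk k s ^ 2) := fun k => (hykc k).pow 2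
  have hy2c : Continuous (fun s => y s ^ 2) := hy.pow 2
  have hyabs : Continuous (fun s => |y s|) := hy.abs
  have hle : ∀ k s, |yk k s| ≤ |y s| := fun k s => by
    simp only [hyk]
    rw [abs_mul, abs_of_nonneg (chk_nonneg k s)]
    exact mul_le_of_le_one_right (abs_nonneg _) (chk_le k s)
  have hle2 : ∀ k s, yk k s ^ 2 ≤ y s ^ 2 := fun k s => sq_le_sq.2 (hle k s)
  have hlim : ∀ s, 0 < s → Tendsto (fun k => yk k s) atTop (𝓝 (y s)) := fun s hs => by
    have := (chk_tendsto hs).const_mul (y s)
    rwa [mul_one] at this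
  have hmem : ∀ t : ℝ, 0 ≤ t → ∀ s ∈ uIoc 0 t, 0 < s := fun t ht s hs => by
    rw [uIoc_of_le ht] at hs; exact hs.1
  -- limits of the primitives
  have l1 : ∀ t, 0 ≤ t → Tendsto (fun k => PP (yk k) t) atTop (𝓝 (PP y t)) := by
    intro t ht
    refine intervalIntegral.tendsto_integral_filter_of_dominated_convergence (fun s => |y s|)
      (Eventually.of_forall fun k => (hykc k).aestronglyMeasurable)
      (Eventually.of_forall fun k => Eventually.of_forall fun s _ => hle k s)
      (hyabs.intervalIntegrable _ _) (Eventually.of_forall fun s hs => hlim s (hmem t ht s hs))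
  have l2 : ∀ t, 0 ≤ t → Tendsto (fun k => PP (fun s => yk k s ^ 2) t) atTop
      (𝓝 (PP (fun s => y s ^ 2) t)) := by
    intro t ht
    refine intervalIntegral.tendsto_integral_filter_of_dominated_convergence (fun s => y s ^ 2)
      (Eventually.of_forall fun k => (hyk2c k).aestronglyMeasurable)
      (Eventually.of_forall fun k => Eventually.of_forall fun s _ => ?_)
      (hy2c.intervalIntegrable _ _)
      (Eventually.of_forall fun s hs => (hlim s (hmem t ht s hs)).pow 2)
    rw [Real.norm_eq_abs, abs_of_nonneg (sq_nonneg _)]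
    exact hle2 k s
  have n2 : ∀ k t, 0 ≤ t → 0 ≤ PP (fun s => yk k s ^ 2) t := fun k t ht =>
    intervalIntegral.integral_nonneg ht fun s _ => sq_nonneg _
  have b2 : ∀ k t, 0 ≤ t → PP (fun s => yk k s ^ 2) t ≤ PP (fun s => y s ^ 2) t := fun k t ht =>
    intervalIntegral.integral_mono_on ht ((hyk2c k).intervalIntegrable _ _)
      (hy2c.intervalIntegrable _ _) fun s _ => hle2 k s
  have l3 : ∀ t, 0 ≤ t → Tendsto (fun k => PP (PP (fun s => yk k s ^ 2)) t) atTop
      (𝓝 (PP (PP (fun s => y s ^ 2)) t)) := by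
    intro t ht
    refine intervalIntegral.tendsto_integral_filter_of_dominated_convergence
      (PP (fun s => y s ^ 2))
      (Eventually.of_forall fun k => (continuous_PP (hyk2c k)).aestronglyMeasurable)
      (Eventually.of_forall fun k => Eventually.of_forall fun s hs => ?_)
      ((continuous_PP hy2c).intervalIntegrable _ _)
      (Eventually.of_forall fun s hs => l2 s (hmem t ht s hs).le)
    have hs0 := (hmem t ht s hs).le
    rw [Real.norm_eq_abs, abs_of_nonneg (n2 k s hs0)]
    exact b2 k s hs0
  have b1 : ∀ k t, 0 ≤ t → |PP (yk k) t| ≤ PP (fun s => |y s|) t := fun k t ht => by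
    have := intervalIntegral.norm_integral_le_of_norm_le (μ := volume) (a := 0) (b := t)
      (f := yk k) (g := fun s => |y s|) ht (Eventually.of_forall fun s _ => hle k s)
      (hyabs.intervalIntegrable _ _)
    exact this
  have n3 : ∀ k t, 0 ≤ t → 0 ≤ PP (PP (fun s => yk k s ^ 2)) t := fun k t ht =>
    intervalIntegral.integral_nonneg ht fun s hs => n2 k s hs.1
  have b3 : ∀ k t, 0 ≤ t → PP (PP (fun s => yk k s ^ 2)) t ≤ PP (PP (fun s => y s ^ 2)) t :=
    fun k t ht => intervalIntegral.integral_mono_on ht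
      ((continuous_PP (hyk2c k)).intervalIntegrable _ _)
      ((continuous_PP hy2c).intervalIntegrable _ _) fun s hs => b2 k s hs.1
  -- the inequality for `yk`
  have hk := fun k => h0 n Ω c B f l l' u u' hΩ hb hD hf hl hll hS hS' huu (yk k) (hykc k)
    (1 / ((k : ℝ) + 1)) (by positivity) (fun s hs => by simp only [hyk]; rw [chk_zero hs, mul_zero])
  -- limits of the integrals
  have L1 : Tendsto (fun k => ∫ x in Ω, (deriv f (u x) * PP (yk k) (u x) ^ 2 -
      f (u x) * PP (fun s => yk k s ^ 2) (u x))) atTop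
      (𝓝 (∫ x in Ω, (deriv f (u x) * PP y (u x) ^ 2 - f (u x) * PP (fun s => y s ^ 2) (u x)))) := by
    refine tendsto_integral_of_dominated_convergence
      (fun x => deriv f (u x) * PP (fun s => |y s|) (u x) ^ 2 +
        f (u x) * PP (fun s => y s ^ 2) (u x)) (fun k => ?_) ?_ (fun k => ?_) ?_
    · exact (integrable_comp' (F := fun s => deriv f s * PP (yk k) s ^ 2 -
        f s * PP (fun s => yk k s ^ 2) s) hb hS.toAd
        ((hf.deriv_cont.mul ((continuous_PP (hykc k)).pow 2)).sub
          (hf.smooth.continuous.mul (continuous_PP (hyk2c k))))).aestronglyMeasurable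
    · exact integrable_comp' (F := fun s => deriv f s * PP (fun s => |y s|) s ^ 2 +
        f s * PP (fun s => y s ^ 2) s) hb hS.toAd
        ((hf.deriv_cont.mul ((continuous_PP hyabs).pow 2)).add
          (hf.smooth.continuous.mul (continuous_PP hy2c)))
    · refine (ae_restrict_iff' hΩ.measurableSet).2 (Eventually.of_forall fun x hx => ?_)
      have hu0 := hS.nonneg x hx
      have e1 := b1 k (u x) hu0
      have e2 := n2 k (u x) hu0
      have e3 := b2 k (u x) hu0
      have e4 := hf.deriv_nonneg (u x)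
      have e5 := hf.one_le hu0
      have e6 : PP (yk k) (u x) ^ 2 ≤ PP (fun s => |y s|) (u x) ^ 2 :=
        sq_le_sq.2 (e1.trans (le_abs_self _))
      rw [Real.norm_eq_abs, abs_le]
      have e7 : 0 ≤ deriv f (u x) * PP (yk k) (u x) ^ 2 := mul_nonneg e4 (sq_nonneg _)
      have e8 : deriv f (u x) * PP (yk k) (u x) ^ 2 ≤
          deriv f (u x) * PP (fun s => |y s|) (u x) ^ 2 := mul_le_mul_of_nonneg_left e6 e4
      have e9 : f (u x) * PP (fun s => yk k s ^ 2) (u x) ≤ f (u x) * PP (fun s => y s ^ 2) (u x) :=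
        mul_le_mul_of_nonneg_left e3 (by linarith)
      have e10 : 0 ≤ f (u x) * PP (fun s => yk k s ^ 2) (u x) := mul_nonneg (by linarith) e2
      constructor <;> linarith
    · refine (ae_restrict_iff' hΩ.measurableSet).2 (Eventually.of_forall fun x hx => ?_)
      have hu0 := hS.nonneg x hx
      exact (((l1 (u x) hu0).pow 2).const_mul _).sub ((l2 (u x) hu0).const_mul _)
  have L2 : Tendsto (fun k => ∫ x in Ω, (PP (yk k) (u x) ^ 2 +
      PP (PP (fun s => yk k s ^ 2)) (u x))) atTop
      (𝓝 (∫ x in Ω, (PP y (u x) ^ 2 + PP (PP (fun s => y s ^ 2)) (u x)))) := by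
    refine tendsto_integral_of_dominated_convergence
      (fun x => PP (fun s => |y s|) (u x) ^ 2 + PP (PP (fun s => y s ^ 2)) (u x))
      (fun k => ?_) ?_ (fun k => ?_) ?_
    · exact (integrable_comp' (F := fun s => PP (yk k) s ^ 2 +
        PP (PP (fun s => yk k s ^ 2)) s) hb hS.toAd
        (((continuous_PP (hykc k)).pow 2).add
          (continuous_PP (continuous_PP (hyk2c k))))).aestronglyMeasurable
    · exact integrable_comp' (F := fun s => PP (fun s => |y s|) s ^ 2 +
        PP (PP (fun s => y s ^ 2)) s) hb hS.toAd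
        (((continuous_PP hyabs).pow 2).add (continuous_PP (continuous_PP hy2c)))
    · refine (ae_restrict_iff' hΩ.measurableSet).2 (Eventually.of_forall fun x hx => ?_)
      have hu0 := hS.nonneg x hx
      have e1 := b1 k (u x) hu0
      have e2 := n3 k (u x) hu0
      have e3 := b3 k (u x) hu0
      have e6 : PP (yk k) (u x) ^ 2 ≤ PP (fun s => |y s|) (u x) ^ 2 :=
        sq_le_sq.2 (e1.trans (le_abs_self _))
      have e7 := sq_nonneg (PP (yk k) (u x))
      rw [Real.norm_eq_abs, abs_le]
      constructor <;> linarith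
    · refine (ae_restrict_iff' hΩ.measurableSet).2 (Eventually.of_forall fun x hx => ?_)
      have hu0 := hS.nonneg x hx
      exact ((l1 (u x) hu0).pow 2).add (l3 (u x) hu0)
  exact le_of_tendsto_of_tendsto' (L1.const_mul l) (L2.const_mul _) hk

end Pool.Agent.Y520.AR
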