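import Pool.Agent.Y520.AR.Main

/-!
# The measure bound from the energy inequality
-/

set_option autoImplicit false

open MeasureTheory Set Filter Topology Laplacian InnerProductSpace
open scoped ContDiff

namespace Pool.Agent.Y520.AR

open Pool.Agent.H947R3

theorem TypeR.deriv_cont {f : ℝ → ℝ} (hf : TypeR f) : Continuous (deriv f) :=
  hf.smooth.continuous_deriv (by norm_num)

theorem TypeR.deriv_nonneg {f : ℝ → ℝ} (hf : TypeR f) (t : ℝ) : 0 ≤ deriv f t :=
  hf.increasing.monotone.deriv_nonneg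

theorem TypeR.deriv_mono {f : ℝ → ℝ} (hf : TypeR f) : Monotone (deriv f) := by
  have := hf.convex.monotoneOn_deriv (fun x _ => hf.diff x)
  exact monotoneOn_univ.1 (by simpa using this)

theorem continuous_PP {y : ℝ → ℝ} (hy : Continuous y) : Continuous (PP y) :=
  intervalIntegral.continuous_primitive (fun a b => hy.intervalIntegrable a b) 0

theorem integrable_comp' {n : ℕ} {Ω : Set (E n)} {u : E n → ℝ} {F : ℝ → ℝ}
    (hb : Bornology.IsBounded Ω) (hu : Ad Ω u) (hF : Continuous F) :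
    IntegrableOn (fun x => F (u x)) Ω := by
  have := integrable_comp (g := fun _ => 1) hb hu hF continuous_const
  simpa using this

theorem t_STEP (hM : S_MAIN) (hR : S_REAL) : S_STEP := by
  intro n Ω c B f l₀ j hΩ hb hD hf hl₀ hj hgr
  have hB := hD.nonneg
  set C₁ := (n * B + B ^ 2) / l₀ with hC₁
  have hC₁0 : 0 ≤ C₁ := by positivity
  obtain ⟨C', hC', hreal⟩ := hR f j C₁ hf hj hC₁0 hgr
  set al : ℝ := (j / 4 : ℝ) with hal
  have hal0 : 0 ≤ al := by positivity
  set y : ℝ → ℝ := fun s => deriv f s ^ al with hy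
  have hyc : Continuous y := hf.deriv_cont.rpow_const (fun _ => Or.inr hal0)
  have hy2c : Continuous (fun s => y s ^ 2) := hyc.pow 2
  have hPy := continuous_PP hyc
  have hPy2 := continuous_PP hy2c
  have hPPy2 := continuous_PP hPy2
  set A := C' * volume.real Ω with hA
  have hA0 : 0 ≤ A := mul_nonneg hC' measureReal_nonneg
  refine ⟨A ^ 4, by positivity, fun l l' u u' hl hll hS hS' huu t ht => ?_⟩
  have hlpos : 0 < l := by linarith
  have hmain := hM n Ω c B f l l' u u' hΩ hb hD hf hlpos hll hS hS' huu y hyc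
  have i1 : IntegrableOn (fun x => deriv f (u x) * PP y (u x) ^ 2 -
      f (u x) * PP (fun s => y s ^ 2) (u x)) Ω :=
    integrable_comp' (F := fun s => deriv f s * PP y s ^ 2 - f s * PP (fun s => y s ^ 2) s) hb
      hS.toAd ((hf.deriv_cont.mul (hPy.pow 2)).sub (hf.smooth.continuous.mul hPy2))
  have i2 : IntegrableOn (fun x => PP y (u x) ^ 2 + PP (PP (fun s => y s ^ 2)) (u x)) Ω :=
    integrable_comp' (F := fun s => PP y s ^ 2 + PP (PP (fun s => y s ^ 2)) s) hb
      hS.toAd ((hPy.pow 2).add hPPy2)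
  have i3 : IntegrableOn (fun x => deriv f (u x) ^ al * (f (u x) - 1)) Ω :=
    integrable_comp' (F := fun s => deriv f s ^ al * (f s - 1)) hb
      hS.toAd (hyc.mul (hf.smooth.continuous.sub continuous_const))
  have hfin : volume Ω ≠ ⊤ := hb.measure_lt_top.ne
  have i4 : IntegrableOn (fun _ : E n => C') Ω := integrableOn_const hfin
  have hnn : 0 ≤ ∫ x in Ω, (PP y (u x) ^ 2 + PP (PP (fun s => y s ^ 2)) (u x)) := by
    refine setIntegral_nonneg hΩ.measurableSet fun x hx => ?_
    have h1 : 0 ≤ PP (PP (fun s => y s ^ 2)) (u x) := by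
      refine intervalIntegral.integral_nonneg (hS.nonneg x hx) fun s hs => ?_
      exact intervalIntegral.integral_nonneg hs.1 fun r _ => sq_nonneg _
    positivity
  have h1 : ∫ x in Ω, (deriv f (u x) * PP y (u x) ^ 2 - f (u x) * PP (fun s => y s ^ 2) (u x)) ≤
      C₁ * ∫ x in Ω, (PP y (u x) ^ 2 + PP (PP (fun s => y s ^ 2)) (u x)) := by
    have h2 : l * ∫ x in Ω, (deriv f (u x) * PP y (u x) ^ 2 -
        f (u x) * PP (fun s => y s ^ 2) (u x)) ≤
        l * (C₁ * ∫ x in Ω, (PP y (u x) ^ 2 + PP (PP (fun s => y s ^ 2)) (u x))) := by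
      refine hmain.trans ?_
      rw [← mul_assoc]
      refine mul_le_mul_of_nonneg_right ?_ hnn
      rw [hC₁, mul_div_assoc', le_div_iff₀ hl₀, mul_comm]
      exact mul_le_mul_of_nonneg_right hl (by positivity)
    exact le_of_mul_le_mul_left h2 hlpos
  have h2 : ∫ x in Ω, deriv f (u x) ^ al * (f (u x) - 1) ≤ A := by
    have h3 : ∫ x in Ω, (deriv f (u x) ^ al * (f (u x) - 1) - C') ≤
        ∫ x in Ω, ((deriv f (u x) * PP y (u x) ^ 2 - f (u x) * PP (fun s => y s ^ 2) (u x)) -
          C₁ * (PP y (u x) ^ 2 + PP (PP (fun s => y s ^ 2)) (u x))) :=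
      setIntegral_mono_on (i3.sub i4) (i1.sub (i2.const_mul C₁)) hΩ.measurableSet
        fun x hx => hreal (u x) (hS.nonneg x hx)
    rw [integral_sub i3 i4, integral_sub i1 (i2.const_mul C₁), integral_const_mul,
      setIntegral_const, smul_eq_mul] at h3
    rw [hA]
    linarith
  have hft : 0 ≤ f t - 1 := by linarith [hf.one_le ht.le]
  have hdt := hf.deriv_nonneg t
  have hsub2 : {x | x ∈ Ω ∧ t < u x} ⊆ Ω := fun x hx => hx.1
  have hfin2 : volume {x | x ∈ Ω ∧ t < u x} ≠ ⊤ :=
    ((measure_mono hsub2).trans_lt hb.measure_lt_top).ne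
  have h3 : deriv f t ^ al * (f t - 1) * LV Ω u t ≤ A := by
    calc deriv f t ^ al * (f t - 1) * LV Ω u t =
          ∫ _ in {x | x ∈ Ω ∧ t < u x}, deriv f t ^ al * (f t - 1) := by
          rw [setIntegral_const, smul_eq_mul, mul_comm]; rfl
      _ ≤ ∫ x in {x | x ∈ Ω ∧ t < u x}, deriv f (u x) ^ al * (f (u x) - 1) := by
          refine setIntegral_mono_on (integrableOn_const hfin2) (i3.mono_set hsub2)
            (measurableSet_LV hΩ hS.toAd _) fun x hx => ?_
          have e1 : deriv f t ^ al ≤ deriv f (u x) ^ al :=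
            Real.rpow_le_rpow hdt (hf.deriv_mono hx.2.le) hal0
          have e2 : f t ≤ f (u x) := hf.increasing.monotone hx.2.le
          exact mul_le_mul e1 (by linarith) hft (Real.rpow_nonneg (hf.deriv_nonneg _) _)
      _ ≤ ∫ x in Ω, deriv f (u x) ^ al * (f (u x) - 1) := by
          refine setIntegral_mono_set i3 ?_ (Eventually.of_forall hsub2)
          refine (ae_restrict_iff' hΩ.measurableSet).2 (Eventually.of_forall fun x hx => ?_)
          have := hf.one_le (hS.nonneg x hx)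
          simp only [Pi.zero_apply]
          exact mul_nonneg (Real.rpow_nonneg (hf.deriv_nonneg _) _) (by linarith)
      _ ≤ A := h2
  have hL0 : 0 ≤ LV Ω u t := LV_nonneg _
  have h4 : LV Ω u t ^ 4 * (deriv f t ^ j * (f t - 1) ^ 4) ≤ A ^ 4 := by
    have e1 := pow_le_pow_left₀ (mul_nonneg (mul_nonneg (Real.rpow_nonneg hdt _) hft) hL0) h3 4
    have e2 : (deriv f t ^ al) ^ 4 = deriv f t ^ j := by
      rw [← Real.rpow_natCast (deriv f t ^ al) 4, ← Real.rpow_mul hdt, hal]
      rw [show (j / 4 : ℝ) * ((4 : ℕ) : ℝ) = (j : ℝ) by push_cast; ring, Real.rpow_natCast]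
    calc LV Ω u t ^ 4 * (deriv f t ^ j * (f t - 1) ^ 4) =
        (deriv f t ^ al * (f t - 1) * LV Ω u t) ^ 4 := by rw [← e2]; ring
      _ ≤ A ^ 4 := e1
  have h5 : (f t - 1) ^ j ≤ deriv f t ^ j * t ^ j := by
    rw [← mul_pow]
    exact pow_le_pow_left₀ hft (hf.deriv_growth ht.le) j
  calc LV Ω u t ^ 4 * (f t - 1) ^ (4 + j) = LV Ω u t ^ 4 * (f t - 1) ^ 4 * (f t - 1) ^ j := by
        rw [pow_add]; ring
    _ ≤ LV Ω u t ^ 4 * (f t - 1) ^ 4 * (deriv f t ^ j * t ^ j) :=
        mul_le_mul_of_nonneg_left h5 (by positivity)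
    _ = LV Ω u t ^ 4 * (deriv f t ^ j * (f t - 1) ^ 4) * t ^ j := by ring
    _ ≤ A ^ 4 * t ^ j := mul_le_mul_of_nonneg_right h4 (by positivity)

end Pool.Agent.Y520.AR
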